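import Pool.Agent.Lib.MP_fc2f40_al.Words

set_option autoImplicit false
set_option linter.unusedSectionVars false

/-!
Rewriting of words in an algebra satisfying a multilinear identity on a Lie-closed subspace.
-/

namespace Pool.Agent.Lib.MP_fc2f40_al.Alg

open Pool.Agent.Lib.MP_fc2f40_al.Words

section lyndon

variable {α : Type*} [LinearOrder α]

lemma SLT_lt {u v : List α} (h : SLT u v) : u < v := by
  induction u generalizing v with
  | nil => simp at h
  | cons a u ih =>
    cases v with
    | nil => simp at h
    | cons b v =>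
      rcases h with h | ⟨rfl, h⟩
      · exact List.Lex.rel h
      · exact List.Lex.cons (ih h)

lemma prefix_or_SLT_of_lt {u v : List α} (h : u < v) : u <+: v ∨ SLT u v := by
  induction u generalizing v with
  | nil => left; exact List.nil_prefix
  | cons a u ih =>
    cases v with
    | nil => cases h
    | cons b v =>
      cases h with
      | rel h => right; left; exact h
      | cons h =>
        rcases ih h with h1 | h1
        · left; simpa using h1
        · right; right; exact ⟨rfl, h1⟩

lemma not_SLT_of_le {u v : List α} (h : u ≤ v) : ¬ SLT v u :=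
  fun h1 => absurd (SLT_lt h1) (not_lt.mpr h)

lemma SLT_asymm {u v : List α} (h : SLT u v) : ¬ SLT v u :=
  fun h1 => SLT_irrefl _ (SLT_trans h h1)

/-- factorization of Lyndon words -/
lemma Lyn_factor {u : List α} (hu : Lyn u) (h2 : 2 ≤ u.length) :
    ∃ u' v : List α, u = u' ++ v ∧ Lyn u' ∧ Lyn v ∧ SLT (u' ++ v) (v ++ u') := by
  obtain ⟨i, hi, hmin⟩ := Finset.exists_min_image (Finset.Icc 1 (u.length - 1))
    (fun i => u.drop i) ⟨1, by rw [Finset.mem_Icc]; omega⟩
  rw [Finset.mem_Icc] at hi
  set v := u.drop i with hv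
  set u' := u.take i with hu'
  have huv : u = u' ++ v := (List.take_append_drop i u).symm
  have hlen' : u'.length = i := by rw [hu', List.length_take]; omega
  have hlenv : v.length = u.length - i := by rw [hv, List.length_drop]
  have hvne : v ≠ [] := by rw [← List.length_pos_iff]; omega
  have hune : u' ≠ [] := by rw [← List.length_pos_iff]; omega
  -- minimality in convenient form
  have hm : ∀ a s : List α, a ≠ [] → s ≠ [] → u = a ++ s → v ≤ s := by
    intro a s ha hs e
    have h1 := List.length_pos_iff.mpr ha
    have h2 := List.length_pos_iff.mpr hs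
    have h3 : u.length = a.length + s.length := by rw [e, List.length_append]
    have h4 : s = u.drop a.length := by rw [e]; simp
    rw [h4]
    exact hmin a.length (by rw [Finset.mem_Icc]; omega)
  refine ⟨u', v, huv, ⟨hune, ?_⟩, ⟨hvne, ?_⟩, ?_⟩
  · intro a s ha hs e
    have h1 := List.length_pos_iff.mpr ha
    have h3 : u'.length = a.length + s.length := by rw [e, List.length_append]
    have hL : SLT u (s ++ v) := by
      apply hu.2 a (s ++ v) ha (by simp [hs])
      rw [huv, e, List.append_assoc]
    rcases SLT_or_prefix s u' (by omega) with h4 | h4 | h4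
    · exfalso
      obtain ⟨r, hr⟩ := h4
      have h5 : u = s ++ (r ++ v) := by rw [huv, ← hr, List.append_assoc]
      rw [h5] at hL
      rw [SLT_append_left] at hL
      have h6 : v ≤ r ++ v := by
        apply hm s (r ++ v) hs (by simp [hvne]) h5
      exact not_SLT_of_le h6 hL
    · exfalso
      have h5 := SLT_append h4 v v
      rw [← huv] at h5
      exact SLT_asymm hL h5
    · exact h4
  · intro a s ha hs e
    have h1 := List.length_pos_iff.mpr ha
    have h3 : v.length = a.length + s.length := by rw [e, List.length_append]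
    have h4 : v ≤ s := by
      apply hm (u' ++ a) s (by simp [hune]) hs
      rw [List.append_assoc, ← e, ← huv]
    have h5 : v < s := by
      refine lt_of_le_of_ne h4 ?_
      intro h
      have := congrArg List.length h
      omega
    rcases prefix_or_SLT_of_lt h5 with h6 | h6
    · exfalso
      have := h6.length_le
      omega
    · exact h6
  · have := hu.2 u' v hune hvne huv
    have h2 := SLT_append this [] u'
    rw [List.append_nil] at h2
    rwa [← huv]

/-- moving a small word to the front -/
lemma SLT_front (u : List α) (a : List (List α)) (ha : a ≠ [])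
    (h : ∀ c ∈ a, SLT (u ++ c) (c ++ u)) : SLT (u ++ a.flatten) (a.flatten ++ u) := by
  induction a with
  | nil => exact absurd rfl ha
  | cons c a ih =>
    have h1 := h c (by simp)
    have h2 : SLT (u ++ (c ++ a.flatten)) (c ++ (u ++ a.flatten)) := by
      rw [← List.append_assoc, ← List.append_assoc]
      exact SLT_append h1 _ _
    rw [List.flatten_cons]
    by_cases ha' : a = []
    · subst ha'
      simpa using h2
    · have h3 := ih ha' (fun c hc => h c (List.mem_cons_of_mem _ hc))
      refine SLT_trans h2 ?_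
      rw [List.append_assoc, SLT_append_left]
      exact h3

lemma SLT_flatten_perm (l : List (List α)) (hl : l.Pairwise (fun u v => SLT (u ++ v) (v ++ u))) :
    ∀ l' : List (List α), l'.Perm l → l' ≠ l → SLT l.flatten l'.flatten := by
  induction l with
  | nil =>
    intro l' hp hne
    exact absurd (List.perm_nil.mp hp) hne
  | cons u t ih =>
    intro l' hp hne
    rw [List.pairwise_cons] at hl
    have hmem : u ∈ l' := hp.mem_iff.mpr (by simp)
    obtain ⟨a, b, rfl⟩ := List.append_of_mem hmem
    have hp' : (a ++ b).Perm t := by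
      have h1 : (u :: (a ++ b)).Perm (u :: t) := (List.perm_middle.symm).trans hp
      exact (List.perm_cons u).mp h1
    have hle : (a ++ b).flatten = t.flatten ∨ SLT t.flatten (a ++ b).flatten := by
      by_cases h : a ++ b = t
      · left; rw [h]
      · right; exact ih hl.2 _ hp' h
    by_cases ha : a = []
    · subst ha
      simp only [List.nil_append] at *
      have hb : b ≠ t := fun h => hne (by rw [h])
      have := ih hl.2 b hp' hb
      rw [List.flatten_cons, List.flatten_cons, SLT_append_left]
      exact this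
    · have h1 : SLT (u ++ a.flatten) (a.flatten ++ u) := by
        apply SLT_front u a ha
        intro c hc
        apply hl.1
        exact hp'.mem_iff.mp (by simp [hc])
      have h2 : SLT (u ++ (a ++ b).flatten) (a ++ u :: b).flatten := by
        simp only [List.flatten_append, List.flatten_cons]
        rw [← List.append_assoc, ← List.append_assoc]
        exact SLT_append h1 _ _
      rw [List.flatten_cons]
      rcases hle with h3 | h3
      · rw [← h3]; exact h2
      · refine SLT_trans ?_ h2
        rw [SLT_append_left]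
        exact h3

end lyndon

section rewriting

variable {α : Type*} [LinearOrder α] {K : Type*} [CommRing K] {U : Type*} [Ring U] [Algebra K U]
variable (x : α → U)

/-- product of generators along a word -/
def xw (w : List α) : U := (w.map x).prod

@[simp] lemma xw_nil : xw x [] = 1 := rfl

lemma xw_append (u v : List α) : xw x (u ++ v) = xw x u * xw x v := by simp [xw]

variable (K)

/-- span of the larger words of the same length -/
def Sg (w : List α) : Submodule K U :=
  Submodule.span K {a | ∃ w' : List α, w'.length = w.length ∧ SLT w w' ∧ a = xw x w'}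

/-- span of all words of given length -/
def Sl (n : ℕ) : Submodule K U :=
  Submodule.span K {a | ∃ w' : List α, w'.length = n ∧ a = xw x w'}

lemma xw_mem_Sl (w : List α) : xw x w ∈ Sl K x w.length :=
  Submodule.subset_span ⟨w, rfl, rfl⟩

lemma Sg_le_Sl (w : List α) : Sg K x w ≤ Sl K x w.length := by
  apply Submodule.span_mono
  rintro a ⟨w', h1, -, h2⟩
  exact ⟨w', h1, h2⟩

lemma Sg_mono {w w' : List α} (hl : w'.length = w.length) (h : SLT w w') :
    Sg K x w' ≤ Sg K x w := by
  apply Submodule.span_mono
  rintro a ⟨v, h1, h2, h3⟩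
  exact ⟨v, by rw [h1, hl], SLT_trans h h2, h3⟩

lemma xw_mem_Sg {w w' : List α} (hl : w'.length = w.length) (h : SLT w w') :
    xw x w' ∈ Sg K x w :=
  Submodule.subset_span ⟨w', hl, h, rfl⟩

lemma Sg_mul_Sl (u v : List α) {a b : U} (ha : a ∈ Sg K x u) (hb : b ∈ Sl K x v.length) :
    a * b ∈ Sg K x (u ++ v) := by
  have h1 : Sg K x u * Sl K x v.length ≤ Sg K x (u ++ v) := by
    rw [Sg, Sl, Submodule.span_mul_span, Submodule.span_le]
    rintro _ ⟨_, ⟨u', h1, h2, rfl⟩, _, ⟨v', h3, rfl⟩, rfl⟩
    simp only [SetLike.mem_coe]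
    rw [← xw_append]
    apply xw_mem_Sg
    · simp [h1, h3]
    · exact SLT_append h2 _ _
  exact h1 (Submodule.mul_mem_mul ha hb)

lemma xw_mul_Sg (u v : List α) {b : U} (hb : b ∈ Sg K x v) :
    xw x u * b ∈ Sg K x (u ++ v) := by
  have h1 : Sg K x v ≤ (Sg K x (u ++ v)).comap (LinearMap.mulLeft K (xw x u)) := by
    conv_lhs => rw [Sg]
    rw [Submodule.span_le]
    rintro _ ⟨v', h1, h2, rfl⟩
    simp only [SetLike.mem_coe, Submodule.mem_comap, LinearMap.mulLeft_apply]
    rw [← xw_append]
    apply xw_mem_Sg
    · simp [h1]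
    · rwa [SLT_append_left]
  exact h1 hb

/-- `a` has leading word `u` -/
def Lead (a : U) (u : List α) : Prop := a - xw x u ∈ Sg K x u

lemma Lead_mul {a b : U} {u v : List α} (ha : Lead K x a u) (hb : Lead K x b v) :
    Lead K x (a * b) (u ++ v) := by
  unfold Lead at *
  have hb' : b ∈ Sl K x v.length := by
    have := (Sl K x v.length).add_mem (Sg_le_Sl K x v hb) (xw_mem_Sl K x v)
    rwa [sub_add_cancel] at this
  have h1 := Sg_mul_Sl K x u v ha hb'
  have h2 := xw_mul_Sg K x u v hb
  have h3 := (Sg K x (u ++ v)).add_mem h1 h2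
  rw [xw_append]
  have : a * b - xw x u * xw x v = (a - xw x u) * b + xw x u * (b - xw x v) := by
    noncomm_ring
  rw [this]
  exact h3

/-- a subspace closed under commutators -/
def LieClosed (Lc : Submodule K U) : Prop := ∀ a ∈ Lc, ∀ b ∈ Lc, a * b - b * a ∈ Lc

lemma exists_lie_of_Lyn (Lc : Submodule K U) (hL : LieClosed K Lc) (hx : ∀ i, x i ∈ Lc) :
    ∀ (n : ℕ) (u : List α), u.length ≤ n → Lyn u → ∃ ℓ ∈ Lc, Lead K x ℓ u := by
  intro n
  induction n with
  | zero =>
    intro u hu hLy
    exact absurd (List.length_eq_zero_iff.mp (by omega)) hLy.1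
  | succ n ih =>
    intro u hu hLy
    by_cases h2 : 2 ≤ u.length
    · obtain ⟨u', v, huv, h3, h4, h5⟩ := Lyn_factor hLy h2
      have hl : u.length = u'.length + v.length := by rw [huv, List.length_append]
      have hl1 := List.length_pos_iff.mpr h3.1
      have hl2 := List.length_pos_iff.mpr h4.1
      obtain ⟨a, ha, ha'⟩ := ih u' (by omega) h3
      obtain ⟨b, hb, hb'⟩ := ih v (by omega) h4
      refine ⟨a * b - b * a, hL a ha b hb, ?_⟩
      have e1 := Lead_mul K x ha' hb'
      have e2 := Lead_mul K x hb' ha'
      unfold Lead at *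
      rw [← huv] at e1 h5
      have hlen : (v ++ u').length = u.length := by rw [List.length_append]; omega
      have e3 := Sg_mono K x hlen h5 e2
      have e4 := xw_mem_Sg K x hlen h5
      have e5 := (Sg K x u).sub_mem ((Sg K x u).sub_mem e1 e3) e4
      have : a * b - b * a - xw x u = a * b - xw x u - (b * a - xw x (v ++ u')) -
          xw x (v ++ u') := by abel
      rw [this]
      exact e5
    · have h1 : u.length = 1 := by
        have := List.length_pos_iff.mpr hLy.1
        omega
      obtain ⟨a, rfl⟩ := List.length_eq_one_iff.mp h1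
      refine ⟨x a, hx a, ?_⟩
      unfold Lead
      simp [xw]

lemma Lead_list (us : List (List α)) (ℓ : List α → U) (h : ∀ u ∈ us, Lead K x (ℓ u) u) :
    Lead K x ((us.map ℓ).prod) us.flatten := by
  induction us with
  | nil => simp [Lead]
  | cons u us ih =>
    rw [List.map_cons, List.prod_cons, List.flatten_cons]
    exact Lead_mul K x (h u (by simp)) (ih (fun v hv => h v (List.mem_cons_of_mem _ hv)))

/-- multilinear identity on a subspace -/
def Ident (n : ℕ) (c : Equiv.Perm (Fin n) → K) (Lc : Submodule K U) : Prop :=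
  ∀ y : Fin n → U, (∀ i, y i ∈ Lc) →
    ∑ σ : Equiv.Perm (Fin n), c σ • (List.ofFn (fun i => y (σ i))).prod = 0

lemma chain_mem_Sg {n : ℕ} (c : Equiv.Perm (Fin n) → K) (hc : c 1 = 1) (Lc : Submodule K U)
    (hL : LieClosed K Lc) (hx : ∀ i, x i ∈ Lc) (hI : Ident K n c Lc) (w : List α)
    (hw : Chain n w) : xw x w ∈ Sg K x w := by
  classical
  obtain ⟨p, q, us, rfl, h1, h2, h3⟩ := hw
  -- it suffices to treat the middle
  suffices hmid : xw x us.flatten ∈ Sg K x us.flatten by
    have e1 := xw_mul_Sg K x p us.flatten hmid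
    have e2 := Sg_mul_Sl K x (p ++ us.flatten) q e1 (xw_mem_Sl K x q)
    rw [xw_append, xw_append]
    exact e2
  have hex : ∀ u : List α, Lyn u → ∃ ℓ ∈ Lc, Lead K x ℓ u := fun u hu =>
    exists_lie_of_Lyn K x Lc hL hx u.length u le_rfl hu
  choose! ℓ hℓ1 hℓ2 using hex
  let f : Fin n → List α := fun i => us.get (i.cast h1.symm)
  have hf : List.ofFn f = us := by
    subst h1
    exact List.ofFn_get us
  have hfu : ∀ i, f i ∈ us := fun i => List.get_mem _ _
  have hid := hI (fun i => ℓ (f i)) (fun i => hℓ1 _ (h2 _ (hfu i)))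
  have hprod : ∀ σ : Equiv.Perm (Fin n),
      (List.ofFn (fun i => ℓ (f (σ i)))).prod = ((List.ofFn (fun i => f (σ i))).map ℓ).prod := by
    intro σ
    rw [List.map_ofFn]
    rfl
  have hlead : ∀ σ : Equiv.Perm (Fin n),
      Lead K x (List.ofFn (fun i => ℓ (f (σ i)))).prod (List.ofFn (fun i => f (σ i))).flatten := by
    intro σ
    rw [hprod]
    apply Lead_list
    intro u hu
    rw [List.mem_ofFn] at hu
    obtain ⟨i, rfl⟩ := hu
    exact hℓ2 _ (h2 _ (hfu _))
  have hpermlist : ∀ σ : Equiv.Perm (Fin n), (List.ofFn (fun i => f (σ i))).Perm us := by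
    intro σ
    have := Equiv.Perm.ofFn_comp_perm σ f
    rw [hf] at this
    exact this
  have hlen : ∀ σ : Equiv.Perm (Fin n),
      (List.ofFn (fun i => f (σ i))).flatten.length = us.flatten.length := by
    intro σ
    exact (List.Perm.flatten (hpermlist σ)).length_eq
  have hfinj : ∀ i j : Fin n, i < j → f i ≠ f j := by
    intro i j hij he
    have hpw := List.pairwise_iff_getElem.mp h3 (i : ℕ) (j : ℕ) (by omega) (by omega) hij
    have hi' : us[(i : ℕ)] = f i := rfl
    have hj' : us[(j : ℕ)] = f j := rfl
    rw [hi', hj', he] at hpw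
    exact SLT_irrefl _ hpw
  have hinj : Function.Injective f := by
    intro i j he
    rcases lt_trichotomy i j with h | h | h
    · exact absurd he (hfinj i j h)
    · exact h
    · exact absurd he.symm (hfinj j i h)
  have hne : ∀ σ : Equiv.Perm (Fin n), σ ≠ 1 → List.ofFn (fun i => f (σ i)) ≠ us := by
    intro σ hσ he
    apply hσ
    rw [← hf] at he
    have := List.ofFn_injective he
    ext i
    have h4 := congrFun this i
    have h5 := hinj h4
    rw [h5]
    rfl
  have hbig : ∀ σ : Equiv.Perm (Fin n), σ ≠ 1 →
      (List.ofFn (fun i => ℓ (f (σ i)))).prod ∈ Sg K x us.flatten := by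
    intro σ hσ
    have h4 := SLT_flatten_perm us h3 _ (hpermlist σ) (hne σ hσ)
    have h5 := hlead σ
    unfold Lead at h5
    have h6 := Sg_mono K x (hlen σ) h4 h5
    have h7 := xw_mem_Sg K x (hlen σ) h4
    have h8 := (Sg K x us.flatten).add_mem h6 h7
    rwa [sub_add_cancel] at h8
  have h9 := hlead 1
  unfold Lead at h9
  have h10 : (List.ofFn (fun i => f ((1 : Equiv.Perm (Fin n)) i))).flatten = us.flatten := by
    simp only [Equiv.Perm.coe_one, id_eq]
    rw [hf]
  rw [h10] at h9
  rw [← Finset.add_sum_erase _ _ (Finset.mem_univ (1 : Equiv.Perm (Fin n))), hc, one_smul] at hid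
  have h11 : ∑ σ ∈ Finset.univ.erase (1 : Equiv.Perm (Fin n)),
      c σ • (List.ofFn (fun i => ℓ (f (σ i)))).prod ∈ Sg K x us.flatten := by
    refine Submodule.sum_mem _ (fun σ hσ => ?_)
    exact Submodule.smul_mem _ _ (hbig σ (Finset.ne_of_mem_erase hσ))
  have h12 : xw x us.flatten = - (∑ σ ∈ Finset.univ.erase (1 : Equiv.Perm (Fin n)),
      c σ • (List.ofFn (fun i => ℓ (f (σ i)))).prod) -
      ((List.ofFn (fun i => ℓ (f ((1 : Equiv.Perm (Fin n)) i)))).prod - xw x us.flatten) := by
    have h13 := eq_neg_of_add_eq_zero_left hid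
    rw [h13]
    abel
  rw [h12]
  exact (Sg K x us.flatten).sub_mem ((Sg K x us.flatten).neg_mem h11) h9

/-- all words are spanned by chain-free words of the same length -/
lemma xw_mem_span [Finite α] {n : ℕ} (c : Equiv.Perm (Fin n) → K) (hc : c 1 = 1)
    (Lc : Submodule K U) (hL : LieClosed K Lc) (hx : ∀ i, x i ∈ Lc) (hI : Ident K n c Lc)
    (w : List α) :
    xw x w ∈ Submodule.span K {a | ∃ v : List α, v.length = w.length ∧ ¬ Chain n v ∧
      a = xw x v} := by
  classical
  obtain ⟨N, hN⟩ : ∃ N, w.length = N := ⟨_, rfl⟩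
  let X := {w : List α // w.length = N}
  have : Finite X := List.finite_length_eq α N
  let r : X → X → Prop := fun a b => SLT b.1 a.1
  have : IsTrans X r := ⟨fun a b c h1 h2 => SLT_trans h2 h1⟩
  have : Std.Irrefl r := ⟨fun a h => SLT_irrefl _ h⟩
  have hwf : WellFounded r := Finite.wellFounded_of_trans_of_irrefl r
  have key : ∀ w : X, xw x w.1 ∈ Submodule.span K {a | ∃ v : List α, v.length = N ∧
      ¬ Chain n v ∧ a = xw x v} := by
    intro w
    induction w using hwf.induction with
    | _ w ih =>
      by_cases hch : Chain n w.1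
      · have h1 := chain_mem_Sg K x c hc Lc hL hx hI w.1 hch
        have h2 : Sg K x w.1 ≤ Submodule.span K {a | ∃ v : List α, v.length = N ∧
            ¬ Chain n v ∧ a = xw x v} := by
          rw [Sg, Submodule.span_le]
          rintro _ ⟨w', h3, h4, rfl⟩
          exact ih ⟨w', by rw [h3, w.2]⟩ h4
        exact h2 h1
      · exact Submodule.subset_span ⟨w.1, w.2, hch, rfl⟩
  have := key ⟨w, hN⟩
  rw [hN]
  exact this

end rewriting

end Pool.Agent.Lib.MP_fc2f40_al.Alg
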