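import Pool.Agent.Lib.MP_fc2f40_al.Ref

set_option autoImplicit false
set_option linter.unusedSectionVars false

/-!
Weighted counting of words without chains.
-/

namespace Pool.Agent.Lib.MP_fc2f40_al.Words

open scoped ENNReal

section general

/-- covering a sum by another one -/
lemma tsum_le_of_cover {α β : Type*} (f : α → ℝ≥0∞) (h : β → ℝ≥0∞) (F : β → α)
    (H : ∀ a, f a ≠ 0 → ∃ b, F b = a ∧ f a ≤ h b) : ∑' a, f a ≤ ∑' b, h b := by
  classical
  choose σ hσ using H
  have h1 : ∑' a, f a = ∑' a : {a // f a ≠ 0}, f a := by
    have := tsum_subtype_eq_of_support_subset (f := f) (s := {a | f a ≠ 0}) (by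
      intro a ha; exact ha)
    exact this.symm
  rw [h1]
  have h2 : ∑' a : {a // f a ≠ 0}, f a ≤ ∑' a : {a // f a ≠ 0}, h (σ a.1 a.2) :=
    ENNReal.tsum_le_tsum (fun a => (hσ a.1 a.2).2)
  refine h2.trans ?_
  apply ENNReal.tsum_comp_le_tsum_of_injective (f := fun a : {a // f a ≠ 0} => σ a.1 a.2)
  intro a b hab
  apply Subtype.ext
  rw [← (hσ a.1 a.2).1, ← (hσ b.1 b.2).1]
  exact congrArg F hab

/-- multiplicative weight of a word -/
noncomputable def gw {Z : Type*} (g : Z → ℝ≥0∞) (w : List Z) : ℝ≥0∞ := (w.map g).prod

@[simp] lemma gw_nil {Z : Type*} (g : Z → ℝ≥0∞) : gw g [] = 1 := rfl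

@[simp] lemma gw_cons {Z : Type*} (g : Z → ℝ≥0∞) (a : Z) (w : List Z) :
    gw g (a :: w) = g a * gw g w := by simp [gw]

lemma gw_append {Z : Type*} (g : Z → ℝ≥0∞) (u v : List Z) :
    gw g (u ++ v) = gw g u * gw g v := by simp [gw]

lemma gw_flatMap {Z β : Type*} (g : Z → ℝ≥0∞) (W : β → List Z) (l : List β) :
    gw g (l.flatMap W) = gw (fun y => gw g (W y)) l := by
  induction l with
  | nil => simp
  | cons y l ih => rw [List.flatMap_cons, gw_append, ih, gw_cons]

lemma gw_le_pow {Z : Type*} (g : Z → ℝ≥0∞) (x : ℝ≥0∞) (hg : ∀ z, g z ≤ x) (w : List Z) :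
    gw g w ≤ x ^ w.length := by
  induction w with
  | nil => simp
  | cons a w ih =>
    rw [gw_cons, List.length_cons, pow_succ, mul_comm]
    exact mul_le_mul' ih (hg a)

lemma tsum_length_le {B : Type*} (G : B → ℝ≥0∞) (n : ℕ) :
    ∑' l : List B, (if l.length = n then gw G l else 0) ≤ (∑' b, G b) ^ n := by
  classical
  induction n with
  | zero =>
    rw [pow_zero]
    have := tsum_le_of_cover (fun l : List B => if l.length = 0 then gw G l else 0)
      (fun _ : Unit => (1 : ℝ≥0∞)) (fun _ => []) (by
        intro l hl
        refine ⟨(), ?_, ?_⟩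
        · by_contra hne
          apply hl
          have : l.length ≠ 0 := by
            intro h0
            exact hne (List.length_eq_zero_iff.mp h0).symm
          simp only [this, if_false]
        · have : l = [] := by
            by_contra hne
            apply hl
            have : l.length ≠ 0 := by
              intro h0
              exact hne (List.length_eq_zero_iff.mp h0)
            simp only [this, if_false]
          subst this
          simp)
    refine this.trans ?_
    rw [tsum_fintype]
    simp
  | succ n ih =>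
    have := tsum_le_of_cover (fun l : List B => if l.length = n + 1 then gw G l else 0)
      (fun p : B × List B => G p.1 * (if p.2.length = n then gw G p.2 else 0))
      (fun p => p.1 :: p.2) (by
        intro l hl
        cases l with
        | nil =>
          exfalso; apply hl
          simp
        | cons b l =>
          refine ⟨(b, l), rfl, ?_⟩
          by_cases h : l.length = n
          · simp [h]
          · exfalso; apply hl
            simp [h])
    refine this.trans ?_
    rw [ENNReal.tsum_prod']
    simp only [ENNReal.tsum_mul_left, ENNReal.tsum_mul_right]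
    rw [pow_succ, mul_comm]
    exact mul_le_mul' ih le_rfl

lemma tsum_gw_le {B : Type*} (G : B → ℝ≥0∞) :
    ∑' l : List B, gw G l ≤ ∑' n : ℕ, (∑' b, G b) ^ n := by
  have h1 : ∀ l : List B, gw G l = ∑' n : ℕ, (if l.length = n then gw G l else 0) := by
    intro l
    rw [tsum_eq_single l.length (by intro n hn; simp [Ne.symm hn])]
    simp
  calc ∑' l : List B, gw G l = ∑' l : List B, ∑' n : ℕ, (if l.length = n then gw G l else 0) :=
        tsum_congr h1
    _ = ∑' n : ℕ, ∑' l : List B, (if l.length = n then gw G l else 0) := ENNReal.tsum_comm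
    _ ≤ _ := ENNReal.tsum_le_tsum (fun n => tsum_length_le G n)

lemma tsum_gw_le_two {B : Type*} (G : B → ℝ≥0∞) (h : ∑' b, G b ≤ 2⁻¹) :
    ∑' l : List B, gw G l ≤ 2 := by
  refine (tsum_gw_le G).trans ?_
  rw [ENNReal.tsum_geometric]
  have : (2 : ℝ≥0∞)⁻¹ ≤ 1 - ∑' b, G b := by
    apply ENNReal.le_sub_of_add_le_right
    · exact ne_top_of_le_ne_top (by simp) h
    · calc (2 : ℝ≥0∞)⁻¹ + ∑' b, G b ≤ 2⁻¹ + 2⁻¹ := by gcongr
        _ = 1 := ENNReal.inv_two_add_inv_two
  calc (1 - ∑' b, G b)⁻¹ ≤ (2⁻¹)⁻¹ := ENNReal.inv_le_inv.mpr this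
    _ = 2 := inv_inv _

/-- block decomposition -/
lemma exists_blocks {β : Type*} (P : β → Prop) : ∀ (N : ℕ) (l : List β), l.length ≤ N →
    (l = [] ∨ ∃ (y : β) (l' : List β), l = y :: l' ∧ P y) →
    ∃ bs : List (β × List β), l = bs.flatMap (fun b => b.1 :: b.2) ∧
      (∀ b ∈ bs, P b.1 ∧ ∀ z ∈ b.2, ¬ P z) ∧ (l ≠ [] → bs ≠ []) := by
  classical
  intro N
  induction N with
  | zero =>
    intro l hl _
    have : l = [] := List.length_eq_zero_iff.mp (by omega)
    subst this
    exact ⟨[], rfl, by simp, fun h => absurd rfl h⟩
  | succ N ih =>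
    intro l hl hP
    rcases hP with rfl | ⟨y, l', rfl, hy⟩
    · exact ⟨[], rfl, by simp, fun h => absurd rfl h⟩
    · have hsplit : l' = l'.takeWhile (fun z => decide (¬ P z)) ++
          l'.dropWhile (fun z => decide (¬ P z)) := (List.takeWhile_append_dropWhile).symm
      obtain ⟨bs, h1, h2, -⟩ := ih (l'.dropWhile (fun z => decide (¬ P z))) (by
          have := List.length_dropWhile_le (p := fun z => decide (¬ P z)) l'
          simp only [List.length_cons] at hl
          omega) (by
        cases h : l'.dropWhile (fun z => decide (¬ P z)) with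
        | nil => left; rfl
        | cons z t =>
          right
          refine ⟨z, t, rfl, ?_⟩
          have := List.head_dropWhile_not (fun z => decide (¬ P z)) (l := l') (by rw [h]; simp)
          simp only [h, List.head_cons] at this
          simpa using this)
      refine ⟨(y, l'.takeWhile (fun z => decide (¬ P z))) :: bs, ?_, ?_, by simp⟩
      · rw [List.flatMap_cons, ← h1, List.cons_append, ← hsplit]
      · intro b hb
        rw [List.mem_cons] at hb
        rcases hb with rfl | hb
        · refine ⟨hy, ?_⟩
          intro z hz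
          have := List.mem_takeWhile_imp hz
          simpa using this
        · exact h2 b hb

end general

section main

variable {Z : Type} [LinearOrder Z]

open Classical in
/-- weighted number of chain-free words of bounded length -/
noncomputable def Sk (k N : ℕ) (g : Z → ℝ≥0∞) : ℝ≥0∞ :=
  ∑' w : List Z, if (¬ Chain k w ∧ w.length ≤ N) then gw g w else 0

lemma sum_Der_le [Fintype Z] (g : Z → ℝ≥0∞) (x : ℝ≥0∞) (hg : ∀ z, g z ≤ x) (θ : ℕ → Z)
    (J T : ℕ) :
    ∑' y : Der θ J, (if T ≤ (y.1.1 : ℕ) then gw g y.word else 0) ≤
      gw g ((List.range T).map θ) * ((∑' i : ℕ, x ^ i) * ∑ b, g b) := by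
  classical
  set c := gw g ((List.range T).map θ) with hc
  set h : ℕ → ℝ≥0∞ := fun j => if T ≤ j then x ^ (j - T) else 0 with hh
  have h1 : ∀ y : Der θ J, (if T ≤ (y.1.1 : ℕ) then gw g y.word else 0) ≤
      c * (h y.1.1 * g y.1.2) := by
    intro y
    by_cases hy : T ≤ (y.1.1 : ℕ)
    · simp only [hh, hy, if_true]
      unfold Der.word
      rw [gw_append]
      have e : List.range (y.1.1 : ℕ) = List.range T ++
          (List.range ((y.1.1 : ℕ) - T)).map (T + ·) := by
        rw [← List.range_add]
        congr 1
        omega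
      rw [e, List.map_append, gw_append, ← hc, mul_assoc]
      refine mul_le_mul' le_rfl (mul_le_mul' ?_ (by simp))
      refine (gw_le_pow g x hg _).trans ?_
      simp
    · simp [hy]
  calc ∑' y : Der θ J, (if T ≤ (y.1.1 : ℕ) then gw g y.word else 0)
      ≤ ∑' y : Der θ J, c * (h y.1.1 * g y.1.2) := ENNReal.tsum_le_tsum h1
    _ = c * ∑' y : Der θ J, (h y.1.1 * g y.1.2) := ENNReal.tsum_mul_left
    _ ≤ c * ∑' p : ℕ × Z, (h p.1 * g p.2) := by
        refine mul_le_mul' le_rfl ?_
        exact ENNReal.tsum_comp_le_tsum_of_injective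
          (f := fun y : Der θ J => ((y.1.1 : ℕ), y.1.2)) (by
            intro y y' hyy
            simp only [Prod.mk.injEq] at hyy
            exact Subtype.ext (Prod.ext (Fin.ext hyy.1) hyy.2))
          (fun p : ℕ × Z => h p.1 * g p.2)
    _ = c * ((∑' j : ℕ, h j) * ∑ b, g b) := by
        have hf : ∑' z, g z = ∑ z, g z := tsum_fintype _
        rw [ENNReal.tsum_prod']
        simp only [ENNReal.tsum_mul_left, ENNReal.tsum_mul_right]
        rw [hf]
    _ ≤ c * ((∑' i : ℕ, x ^ i) * ∑ b, g b) := by
        refine mul_le_mul' le_rfl (mul_le_mul' ?_ le_rfl)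
        apply tsum_le_of_cover _ _ (fun i => T + i)
        intro j hj
        by_cases hT : T ≤ j
        · refine ⟨j - T, by omega, ?_⟩
          simp [hh, hT]
        · exfalso; apply hj
          simp [hh, hT]

open Classical in
/-- weighted sum over the chain-free words with given minimal start -/
noncomputable def Gv (k N T : ℕ) (g : Z → ℝ≥0∞) (v : List Z) : ℝ≥0∞ :=
  ∑' W : List Z, if (¬ Chain (k + 1) W ∧ W.length ≤ N ∧ W.take T = v ∧ StartsMin T W)
    then gw g W else 0

lemma Gv_short (k N T : ℕ) (g : Z → ℝ≥0∞) (v : List Z) (hv : v.length < T) :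
    Gv k N T g v ≤ gw g v := by
  classical
  unfold Gv
  have := tsum_le_of_cover (fun W : List Z =>
    if (¬ Chain (k + 1) W ∧ W.length ≤ N ∧ W.take T = v ∧ StartsMin T W) then gw g W else 0)
    (fun _ : Unit => gw g v) (fun _ => v) (by
      intro W hW
      have hc : ¬ Chain (k + 1) W ∧ W.length ≤ N ∧ W.take T = v ∧ StartsMin T W := by
        by_contra hcon
        apply hW
        simp only [hcon, if_false]
      have hWv : W = v := by
        have h1 := hc.2.2.1
        have h2 : W.length < T := by
          have := congrArg List.length h1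
          rw [List.length_take] at this
          omega
        rw [List.take_of_length_le h2.le] at h1
        exact h1
      refine ⟨(), hWv.symm, ?_⟩
      rw [if_pos hc, hWv])
  refine this.trans ?_
  rw [tsum_fintype]
  simp

lemma Gv_long [Fintype Z] (k N T : ℕ) (hT : 0 < T) (g : Z → ℝ≥0∞) (x : ℝ≥0∞)
    (hg : ∀ z, g z ≤ x) (M K : ℝ≥0∞) (hM : ∑ z, g z ≤ M)
    (hK : ∀ θ : ℕ → Z, Sk k N (fun y : Der θ N => gw g y.word) ≤ K)
    (hr : x ^ T * ((∑' i : ℕ, x ^ i) * M * K) ≤ 2⁻¹) (v : List Z) (hv : v.length = T) :
    Gv k N T g v ≤ gw g v * ((∑' i : ℕ, x ^ i) +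
      2 * (∑' i : ℕ, x ^ i) * ((∑' i : ℕ, x ^ i) * M * K)) := by
  classical
  set D : ℝ≥0∞ := ∑' i : ℕ, x ^ i with hD
  obtain ⟨z0, v', hv0⟩ := List.exists_cons_of_length_pos (l := v) (by omega)
  by_cases hPN : PNfin v
  swap
  · -- no word can start minimally with `v`
    have : Gv k N T g v = 0 := by
      unfold Gv
      rw [ENNReal.tsum_eq_zero]
      intro W
      rw [if_neg]
      rintro ⟨-, -, h1, h2⟩
      apply hPN
      rw [← h1]
      exact h2.PNfin
    rw [this]
    exact zero_le
  have hvne : v ≠ [] := by rw [hv0]; simp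
  set θ := tht z0 v with hθ
  have hPN' : PN θ := PN_tht z0 v hvne hPN
  have hvθ : (List.range T).map θ = v := by
    have := map_tht_range z0 v 0
    rw [hv, add_zero] at this
    exact this
  set gY : Der θ N → ℝ≥0∞ := fun y => gw g y.word with hgY
  -- blocks
  set GB : Der θ N × List (Der θ N) → ℝ≥0∞ := fun b =>
    (if T ≤ (b.1.1.1 : ℕ) then gw g b.1.word else 0) *
    (if (¬ Chain k b.2 ∧ b.2.length ≤ N) then gw gY b.2 else 0) with hGB
  have hr1 : ∑' b, GB b ≤ gw g v * (D * M) * K := by
    rw [hGB, ENNReal.tsum_prod']
    simp only [ENNReal.tsum_mul_left, ENNReal.tsum_mul_right]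
    refine mul_le_mul' ?_ (hK θ)
    have := sum_Der_le g x hg θ N T
    rw [hvθ] at this
    refine this.trans ?_
    gcongr
  have hvx : gw g v ≤ x ^ T := by
    have := gw_le_pow g x hg v
    rwa [hv] at this
  have hr2 : ∑' b, GB b ≤ 2⁻¹ := by
    refine hr1.trans (le_trans ?_ hr)
    rw [mul_assoc]
    gcongr
  have hblocks : ∑' bs : List (Der θ N × List (Der θ N)), gw GB bs ≤ 2 := tsum_gw_le_two GB hr2
  set hsum : List (Der θ N × List (Der θ N)) × ℕ → ℝ≥0∞ := fun p =>
    (if p.1 ≠ [] then gw GB p.1 * gw g ((List.range p.2).map θ) else 0) +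
    (if p.1 = [] ∧ T ≤ p.2 then gw g ((List.range p.2).map θ) else 0) with hhsum
  have hcover : Gv k N T g v ≤ ∑' p, hsum p := by
    unfold Gv
    apply tsum_le_of_cover _ _ (fun p : List (Der θ N × List (Der θ N)) × ℕ =>
      (p.1.flatMap (fun b => b.1 :: b.2)).flatMap Der.word ++ (List.range p.2).map θ)
    intro W hW
    have hc : ¬ Chain (k + 1) W ∧ W.length ≤ N ∧ W.take T = v ∧ StartsMin T W := by
      by_contra hcon
      apply hW
      simp only [hcon, if_false]
    obtain ⟨hc1, hc2, hc3, hc4⟩ := hc
    have hWT : T ≤ W.length := by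
      have := congrArg List.length hc3
      rw [List.length_take, hv] at this
      omega
    have hdom : Dom θ W := by
      have := hc4.dom hT hWT z0
      rwa [hc3] at this
    obtain ⟨l, n, hl1, hl2⟩ := Dom.parse N N W hc2 le_rfl hdom
    have hl3 := hl2 T (by
      intro i hi hiT
      have h1 : v[i]'(by omega) = W[i] := by
        have : (W.take T)[i]'(by rw [List.length_take]; omega) = W[i] := List.getElem_take
        simpa only [hc3] using this
      rw [hθ, tht_lt z0 v i (by omega), h1]) hWT
    obtain ⟨bs, hb1, hb2, hb3⟩ := exists_blocks (fun y : Der θ N => T ≤ (y.1.1 : ℕ)) l.length l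
      le_rfl (by
        rcases hl3 with h | ⟨y, l', h1, h2⟩
        · exact Or.inl h.1
        · exact Or.inr ⟨y, l', h1, h2⟩)
    refine ⟨(bs, n), ?_, ?_⟩
    · rw [← hb1]; exact hl1.symm
    · rw [if_pos ⟨hc1, hc2, hc3, hc4⟩]
      have hgWeq : gw g W = gw gY l * gw g ((List.range n).map θ) := by
        rw [hl1, gw_append, gw_flatMap]
      have hbs : gw gY l = gw GB bs := by
        rw [hb1, gw_flatMap]
        -- compare blockwise
        have hW' : ∀ b ∈ bs, gw gY (b.1 :: b.2) = GB b := by
          intro b hb
          obtain ⟨g1, g2⟩ := hb2 b hb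
          obtain ⟨bs1, bs2, hbs12⟩ := List.append_of_mem hb
          have hfac : W = (bs1.flatMap (fun b => b.1 :: b.2)).flatMap Der.word ++
              (b.1 :: b.2).flatMap Der.word ++
              ((bs2.flatMap (fun b => b.1 :: b.2)).flatMap Der.word ++
                (List.range n).map θ) := by
            rw [hl1, hb1, hbs12]
            simp [List.flatMap_append, List.flatMap_cons]
          have hnc : ¬ Chain k b.2 := by
            intro hch
            apply hc1
            rw [hfac]
            apply Chain_of_factor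
            apply (Der.code hPN' N).Chain
            apply Chain_succ_of_head b.1 b.2 _ hch
            intro z hz
            rw [Der.lt_iff]
            left
            have h' : ¬ T ≤ (z.1.1 : ℕ) := g2 z hz
            have h'' : T ≤ (b.1.1.1 : ℕ) := g1
            exact Fin.lt_def.mpr (by omega)
          have hlen : b.2.length ≤ N := by
            refine le_trans ?_ hc2
            rw [hfac]
            have : b.2.length ≤ ((b.1 :: b.2).flatMap Der.word).length := by
              have aux : ∀ l : List (Der θ N), l.length ≤ (l.flatMap Der.word).length := by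
                intro l
                induction l with
                | nil => simp
                | cons y l ih =>
                  rw [List.flatMap_cons, List.length_append, List.length_cons, Der.word_length]
                  omega
              have := aux (b.1 :: b.2)
              rw [List.length_cons] at this
              omega
            simp only [List.length_append]
            omega
          rw [hGB, gw_cons]
          simp only [g1, if_true, hnc, hlen, not_false_eq_true, and_self]
          rfl
        clear hb1 hb2 hb3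
        unfold gw
        congr 1
        apply List.map_congr_left
        intro b hb
        exact hW' b hb
      rw [hgWeq, hbs, hhsum]
      by_cases hbs0 : bs = []
      · have hl0 : l = [] := by rw [hb1, hbs0]; rfl
        rcases hl3 with h | ⟨y, l', h1, h2⟩
        · simp [hbs0, h.2]
        · rw [hl0] at h1; exact absurd h1 (by simp)
      · simp [hbs0]
  refine hcover.trans ?_
  rw [hhsum, ENNReal.tsum_add]
  have hDn : ∑' n : ℕ, gw g ((List.range n).map θ) ≤ D := by
    apply ENNReal.tsum_le_tsum
    intro n
    refine (gw_le_pow g x hg _).trans ?_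
    simp
  have p1 : ∑' p : List (Der θ N × List (Der θ N)) × ℕ,
      (if p.1 ≠ [] then gw GB p.1 * gw g ((List.range p.2).map θ) else 0) ≤
      gw g v * (D * M) * K * 2 * D := by
    have q1 : ∑' bs : List (Der θ N × List (Der θ N)), (if bs ≠ [] then gw GB bs else 0) ≤
        gw g v * (D * M) * K * 2 := by
      have := tsum_le_of_cover
        (fun bs : List (Der θ N × List (Der θ N)) => if bs ≠ [] then gw GB bs else 0)
        (fun q : (Der θ N × List (Der θ N)) × List (Der θ N × List (Der θ N)) =>
          GB q.1 * gw GB q.2) (fun q => q.1 :: q.2) (by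
          intro bs hbs
          cases bs with
          | nil => exfalso; apply hbs; simp
          | cons b bs => exact ⟨(b, bs), rfl, by simp⟩)
      refine this.trans ?_
      rw [ENNReal.tsum_prod']
      simp only [ENNReal.tsum_mul_left, ENNReal.tsum_mul_right]
      exact mul_le_mul' hr1 hblocks
    have q2 : ∀ p : List (Der θ N × List (Der θ N)) × ℕ,
        (if p.1 ≠ [] then gw GB p.1 * gw g ((List.range p.2).map θ) else 0) =
        (if p.1 ≠ [] then gw GB p.1 else 0) * gw g ((List.range p.2).map θ) := by
      intro p
      split_ifs <;> simp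
    rw [tsum_congr q2, ENNReal.tsum_prod']
    simp only [ENNReal.tsum_mul_left, ENNReal.tsum_mul_right]
    exact mul_le_mul' q1 hDn
  have p2 : ∑' p : List (Der θ N × List (Der θ N)) × ℕ,
      (if p.1 = [] ∧ T ≤ p.2 then gw g ((List.range p.2).map θ) else 0) ≤ gw g v * D := by
    have := tsum_le_of_cover
      (fun p : List (Der θ N × List (Der θ N)) × ℕ =>
        (if p.1 = [] ∧ T ≤ p.2 then gw g ((List.range p.2).map θ) else 0))
      (fun i : ℕ => gw g v * x ^ i) (fun i => ([], T + i)) (by
        rintro ⟨bs, n⟩ hp
        have hcond : bs = [] ∧ T ≤ n := by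
          by_contra hcon
          apply hp
          simp only [hcon, if_false]
        obtain ⟨rfl, hn⟩ := hcond
        refine ⟨n - T, ?_, ?_⟩
        · congr 1
          omega
        · simp only [hn, and_self, if_true]
          have e : List.range n = List.range T ++ (List.range (n - T)).map (T + ·) := by
            rw [← List.range_add]
            congr 1
            omega
          rw [e, List.map_append, gw_append, hvθ]
          refine mul_le_mul' le_rfl ?_
          refine (gw_le_pow g x hg _).trans ?_
          simp)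
    refine this.trans ?_
    rw [ENNReal.tsum_mul_left]
  refine (add_le_add p1 p2).trans ?_
  apply le_of_eq
  ring

end main

end Pool.Agent.Lib.MP_fc2f40_al.Words
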