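import Pool.Agent.Lib.MP_fc2f40_al.Count

set_option autoImplicit false
set_option linter.unusedSectionVars false

/-!
The uniform bound for the weighted number of chain-free words.
-/

namespace Pool.Agent.Lib.MP_fc2f40_al.Words

open scoped ENNReal

section rec

variable {Z : Type} [LinearOrder Z]

open Classical in
/-- words all of whose truncated suffix keys lie in `U` -/
noncomputable def Hs (k N T : ℕ) (g : Z → ℝ≥0∞) (U : Finset (List (WithTop Z))) : ℝ≥0∞ :=
  ∑' w : List Z, if (¬ Chain (k + 1) w ∧ w.length ≤ N ∧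
    ∀ a < w.length, kap T (w.drop a) ∈ U) then gw g w else 0

open Classical in
/-- nonempty words with minimal start of key `κ` -/
noncomputable def Gk (k N T : ℕ) (g : Z → ℝ≥0∞) (κ : List (WithTop Z)) : ℝ≥0∞ :=
  ∑' W : List Z, if (W ≠ [] ∧ ¬ Chain (k + 1) W ∧ W.length ≤ N ∧ kap T W = κ ∧ StartsMin T W)
    then gw g W else 0

lemma Gk_le_Gv (k N T : ℕ) (g : Z → ℝ≥0∞) (v : List Z) : Gk k N T g (key v) ≤ Gv k N T g v := by
  classical
  unfold Gk Gv
  apply ENNReal.tsum_le_tsum
  intro W
  by_cases h : (W ≠ [] ∧ ¬ Chain (k + 1) W ∧ W.length ≤ N ∧ kap T W = key v ∧ StartsMin T W)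
  · rw [if_pos h, if_pos ⟨h.2.1, h.2.2.1, key_injective h.2.2.2.1, h.2.2.2.2⟩]
  · rw [if_neg h]
    exact zero_le

lemma Hs_empty (k N T : ℕ) (g : Z → ℝ≥0∞) : Hs k N T g ∅ ≤ 1 := by
  classical
  unfold Hs
  have := tsum_le_of_cover (fun w : List Z => if (¬ Chain (k + 1) w ∧ w.length ≤ N ∧
    ∀ a < w.length, kap T (w.drop a) ∈ (∅ : Finset (List (WithTop Z)))) then gw g w else 0)
    (fun _ : Unit => 1) (fun _ => []) (by
      intro w hw
      have hc : ¬ Chain (k + 1) w ∧ w.length ≤ N ∧
          ∀ a < w.length, kap T (w.drop a) ∈ (∅ : Finset (List (WithTop Z))) := by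
        by_contra hcon
        apply hw
        simp only [hcon, if_false]
      have hw0 : w = [] := by
        by_contra hne
        have := hc.2.2 0 (List.length_pos_iff.mpr hne)
        simp at this
      refine ⟨(), hw0.symm, ?_⟩
      rw [if_pos hc, hw0]
      simp)
  refine this.trans ?_
  rw [tsum_fintype]
  simp

lemma Hs_insert (k N T : ℕ) (g : Z → ℝ≥0∞) (V : Finset (List (WithTop Z)))
    (hV : ∀ w : List Z, kap T w ∈ V) (a : List (WithTop Z)) (s : Finset (List (WithTop Z)))
    (has : ∀ κ ∈ s, a < κ) (hs : ∀ κ ∈ s, ∀ κ' ∈ V, κ ≤ κ' → κ' ∈ s) :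
    Hs k N T g (insert a s) ≤ Hs k N T g s * (1 + Gk k N T g a) := by
  classical
  have h1 : ∀ w : List Z, (if (¬ Chain (k + 1) w ∧ w.length ≤ N ∧
      ∀ i < w.length, kap T (w.drop i) ∈ insert a s) then gw g w else 0) ≤
      (if (¬ Chain (k + 1) w ∧ w.length ≤ N ∧
        ∀ i < w.length, kap T (w.drop i) ∈ s) then gw g w else 0) +
      (if (¬ Chain (k + 1) w ∧ w.length ≤ N ∧
        (∀ i < w.length, kap T (w.drop i) ∈ insert a s) ∧
        ∃ i < w.length, kap T (w.drop i) = a) then gw g w else 0) := by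
    intro w
    by_cases h : (¬ Chain (k + 1) w ∧ w.length ≤ N ∧
      ∀ i < w.length, kap T (w.drop i) ∈ insert a s)
    · by_cases h2 : ∃ i < w.length, kap T (w.drop i) = a
      · rw [if_pos h, if_pos (c := _ ∧ _ ∧ _ ∧ _) ⟨h.1, h.2.1, h.2.2, h2⟩]
        exact le_add_self
      · have h3 : ∀ i < w.length, kap T (w.drop i) ∈ s := by
          intro i hi
          have := h.2.2 i hi
          rw [Finset.mem_insert] at this
          rcases this with h4 | h4
          · exact absurd ⟨i, hi, h4⟩ h2
          · exact h4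
        rw [if_pos h, if_pos (c := _ ∧ _ ∧ ∀ i < w.length, kap T (w.drop i) ∈ s)
          ⟨h.1, h.2.1, h3⟩]
        exact le_self_add
    · rw [if_neg h]
      exact zero_le
  have h2 : Hs k N T g (insert a s) ≤ Hs k N T g s +
      ∑' w : List Z, (if (¬ Chain (k + 1) w ∧ w.length ≤ N ∧
        (∀ i < w.length, kap T (w.drop i) ∈ insert a s) ∧
        ∃ i < w.length, kap T (w.drop i) = a) then gw g w else 0) := by
    unfold Hs
    rw [← ENNReal.tsum_add]
    exact ENNReal.tsum_le_tsum h1
  refine h2.trans ?_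
  rw [mul_add, mul_one]
  refine add_le_add le_rfl ?_
  have h3 := tsum_le_of_cover (fun w : List Z => (if (¬ Chain (k + 1) w ∧ w.length ≤ N ∧
        (∀ i < w.length, kap T (w.drop i) ∈ insert a s) ∧
        ∃ i < w.length, kap T (w.drop i) = a) then gw g w else 0))
      (fun p : List Z × List Z =>
        (if (¬ Chain (k + 1) p.1 ∧ p.1.length ≤ N ∧
          ∀ i < p.1.length, kap T (p.1.drop i) ∈ s) then gw g p.1 else 0) *
        (if (p.2 ≠ [] ∧ ¬ Chain (k + 1) p.2 ∧ p.2.length ≤ N ∧ kap T p.2 = a ∧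
          StartsMin T p.2) then gw g p.2 else 0))
      (fun p => p.1 ++ p.2) (by
    intro w hw
    have hc : ¬ Chain (k + 1) w ∧ w.length ≤ N ∧
        (∀ i < w.length, kap T (w.drop i) ∈ insert a s) ∧
        ∃ i < w.length, kap T (w.drop i) = a := by
      by_contra hcon
      apply hw
      simp only [hcon, if_false]
    obtain ⟨c1, c2, c3, c4⟩ := hc
    obtain ⟨hi1, hi2⟩ := Nat.find_spec c4
    have hmin : ∀ j < Nat.find c4, j < w.length → kap T (w.drop j) ≠ a := by
      intro j hj hjw he
      exact Nat.find_min c4 hj ⟨hjw, he⟩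
    set i := Nat.find c4 with hi
    refine ⟨(w.take i, w.drop i), List.take_append_drop _ _, ?_⟩
    have e1 : ¬ Chain (k + 1) (w.take i) := by
      intro hch
      apply c1
      have := Chain_of_factor hch [] (w.drop i)
      simpa using this
    have e2 : ¬ Chain (k + 1) (w.drop i) := by
      intro hch
      apply c1
      have := Chain_of_factor hch (w.take i) []
      simpa using this
    have e3 : (w.take i).length ≤ N := by rw [List.length_take]; omega
    have e4 : (w.drop i).length ≤ N := by rw [List.length_drop]; omega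
    have e5 : w.drop i ≠ [] := by
      rw [← List.length_pos_iff, List.length_drop]; omega
    have e6 : StartsMin T (w.drop i) := by
      intro b hb
      rw [List.length_drop] at hb
      rw [hi2, List.drop_drop]
      have := c3 (i + b) (by omega)
      rw [Finset.mem_insert] at this
      rcases this with h | h
      · exact h.ge
      · exact (has _ h).le
    have e7 : ∀ j < (w.take i).length, kap T ((w.take i).drop j) ∈ s := by
      intro j hj
      rw [List.length_take] at hj
      have f1 : kap T (w.drop j) ∈ s := by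
        have := c3 j (by omega)
        rw [Finset.mem_insert] at this
        rcases this with h | h
        · exact absurd h (hmin j (by omega) (by omega))
        · exact h
      have f2 : w.drop j = (w.take i).drop j ++ w.drop i := by
        conv_lhs => rw [← List.take_append_drop i w]
        rw [List.drop_append_of_le_length (by rw [List.length_take]; omega)]
      have f3 : kap T (w.drop j) ≤ kap T ((w.take i).drop j) := by
        rw [f2]
        exact kap_append_le T _ _
      exact hs _ f1 _ (hV _) f3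
    rw [if_pos ⟨c1, c2, c3, c4⟩]
    simp only
    rw [if_pos (c := _ ∧ _ ∧ _) ⟨e1, e3, e7⟩, if_pos (c := _ ∧ _ ∧ _ ∧ _ ∧ _)
      ⟨e5, e2, e4, hi2, e6⟩, ← gw_append, List.take_append_drop])
  refine h3.trans ?_
  rw [ENNReal.tsum_prod']
  simp only [ENNReal.tsum_mul_left, ENNReal.tsum_mul_right]
  exact le_rfl

lemma Hs_le_prod (k N T : ℕ) (g : Z → ℝ≥0∞) (V : Finset (List (WithTop Z)))
    (hV : ∀ w : List Z, kap T w ∈ V) (U : Finset (List (WithTop Z))) :
    (∀ κ ∈ U, ∀ κ' ∈ V, κ ≤ κ' → κ' ∈ U) → Hs k N T g U ≤ ∏ κ ∈ U, (1 + Gk k N T g κ) := by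
  classical
  induction U using Finset.induction_on_min with
  | empty => intro _; simpa using Hs_empty k N T g
  | insert a s has ih =>
    intro hs
    have hs' : ∀ κ ∈ s, ∀ κ' ∈ V, κ ≤ κ' → κ' ∈ s := by
      intro κ hκ κ' hκ' hle
      have := hs κ (Finset.mem_insert_of_mem hκ) κ' hκ' hle
      rw [Finset.mem_insert] at this
      rcases this with h | h
      · exfalso
        have := has κ hκ
        rw [h] at hle
        exact absurd this (not_lt.mpr hle)
      · exact h
    have hna : a ∉ s := fun h => lt_irrefl _ (has a h)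
    rw [Finset.prod_insert hna, mul_comm]
    exact (Hs_insert k N T g V hV a s has hs').trans (mul_le_mul' (ih hs') le_rfl)

end rec

section final

lemma prod_one_add_le {ι : Type*} (s : Finset ι) (f : ι → ℝ≥0∞) (B : ℝ≥0∞) (hB : B ≠ ⊤)
    (h : ∑ i ∈ s, f i ≤ B) : ∏ i ∈ s, (1 + f i) ≤ ENNReal.ofReal (Real.exp B.toReal) := by
  have hf : ∀ i ∈ s, f i ≠ ⊤ := by
    intro i hi
    refine ne_top_of_le_ne_top hB (le_trans ?_ h)
    exact Finset.single_le_sum (fun _ _ => zero_le) hi
  have h1 : ∏ i ∈ s, (1 + f i) = ENNReal.ofReal (∏ i ∈ s, (1 + (f i).toReal)) := by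
    rw [ENNReal.ofReal_prod_of_nonneg (fun i _ => by positivity)]
    refine Finset.prod_congr rfl (fun i hi => ?_)
    rw [ENNReal.ofReal_add zero_le_one ENNReal.toReal_nonneg, ENNReal.ofReal_one,
      ENNReal.ofReal_toReal (hf i hi)]
  rw [h1]
  apply ENNReal.ofReal_le_ofReal
  calc ∏ i ∈ s, (1 + (f i).toReal) ≤ ∏ i ∈ s, Real.exp (f i).toReal := by
        apply Finset.prod_le_prod
        · intro i _; positivity
        · intro i _
          have := Real.add_one_le_exp (f i).toReal
          linarith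
    _ = Real.exp (∑ i ∈ s, (f i).toReal) := (Real.exp_sum s _).symm
    _ ≤ Real.exp B.toReal := by
        apply Real.exp_le_exp.mpr
        rw [← ENNReal.toReal_sum hf]
        exact ENNReal.toReal_mono hB h

lemma exists_T (x c : ℝ≥0∞) (hx : x < 1) (hc : c ≠ ⊤) : ∃ T : ℕ, 0 < T ∧ x ^ T * c ≤ 2⁻¹ := by
  have h1 := ENNReal.tendsto_pow_atTop_nhds_zero_of_lt_one hx
  have h2 : (0 : ℝ≥0∞) < 2⁻¹ * (c + 1)⁻¹ := by
    apply ENNReal.mul_pos
    · simp
    · simp [hc]
  have h3 := (h1.eventually (gt_mem_nhds h2)).and (Filter.eventually_gt_atTop 0)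
  obtain ⟨T, hT1, hT2⟩ := h3.exists
  refine ⟨T, hT2, ?_⟩
  calc x ^ T * c ≤ (2⁻¹ * (c + 1)⁻¹) * (c + 1) := by
        gcongr
        exact le_self_add
    _ = 2⁻¹ := by
        rw [mul_assoc, ENNReal.inv_mul_cancel (by simp) (by simp [hc]), mul_one]

lemma sum_gw_length_le {Z : Type} (g : Z → ℝ≥0∞) (M : ℝ≥0∞)
    (hM : ∑' z, g z ≤ M) (T : ℕ) (F : Finset (List Z)) (hF : ∀ v ∈ F, v.length ≤ T) :
    ∑ v ∈ F, gw g v ≤ ∑ j ∈ Finset.range (T + 1), M ^ j := by
  classical
  calc ∑ v ∈ F, gw g v
      ≤ ∑ v ∈ F, ∑ j ∈ Finset.range (T + 1), (if v.length = j then gw g v else 0) := by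
        refine Finset.sum_le_sum (fun v hv => ?_)
        rw [Finset.sum_ite_eq]
        rw [if_pos (Finset.mem_range.mpr (Nat.lt_succ_of_le (hF v hv)))]
    _ = ∑ j ∈ Finset.range (T + 1), ∑ v ∈ F, (if v.length = j then gw g v else 0) :=
        Finset.sum_comm
    _ ≤ ∑ j ∈ Finset.range (T + 1), M ^ j := by
        refine Finset.sum_le_sum (fun j _ => ?_)
        refine (ENNReal.sum_le_tsum F).trans ?_
        refine (tsum_length_le g j).trans ?_
        gcongr

/-- **Main bound**: weighted number of words without `k`-chains -/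
theorem Sk_bound (x : ℝ≥0∞) (hx : x < 1) (k : ℕ) : ∀ M : ℝ≥0∞, M ≠ ⊤ → ∃ Ψ : ℝ≥0∞, Ψ ≠ ⊤ ∧
    ∀ (Z : Type) [LinearOrder Z] [Fintype Z] (g : Z → ℝ≥0∞), (∀ z, g z ≤ x) → ∑ z, g z ≤ M →
      ∀ N : ℕ, Sk k N g ≤ Ψ := by
  classical
  induction k with
  | zero =>
    intro M _
    refine ⟨0, by simp, ?_⟩
    intro Z _ _ g _ _ N
    apply le_of_eq
    unfold Sk
    rw [ENNReal.tsum_eq_zero]
    intro w
    rw [if_neg]
    rintro ⟨h, -⟩
    apply h
    exact ⟨w, [], [], by simp, rfl, by simp, List.Pairwise.nil⟩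
  | succ k ih =>
    intro M hMt
    set D : ℝ≥0∞ := ∑' i : ℕ, x ^ i with hD
    have hDt : D ≠ ⊤ := by
      rw [hD, ENNReal.tsum_geometric]
      apply ENNReal.inv_ne_top.mpr
      exact (tsub_pos_of_lt hx).ne'
    obtain ⟨K, hKt, hK⟩ := ih (D * M) (ENNReal.mul_ne_top hDt hMt)
    have hct : D * M * K ≠ ⊤ := ENNReal.mul_ne_top (ENNReal.mul_ne_top hDt hMt) hKt
    obtain ⟨T, hT, hr⟩ := exists_T x (D * M * K) hx hct
    set C : ℝ≥0∞ := 1 + (D + 2 * D * (D * M * K)) with hC
    have hCt : C ≠ ⊤ := by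
      apply ENNReal.add_ne_top.mpr
      refine ⟨by simp, ENNReal.add_ne_top.mpr ⟨hDt, ?_⟩⟩
      exact ENNReal.mul_ne_top (ENNReal.mul_ne_top (by simp) hDt) hct
    set B : ℝ≥0∞ := (∑ j ∈ Finset.range (T + 1), M ^ j) * C with hB
    have hBt : B ≠ ⊤ := by
      apply ENNReal.mul_ne_top _ hCt
      rw [ENNReal.sum_ne_top]
      intro j _
      exact ENNReal.pow_ne_top hMt
    refine ⟨ENNReal.ofReal (Real.exp B.toReal), by simp, ?_⟩
    intro Z _ _ g hg hM N
    -- bound for the derived alphabets
    have hKθ : ∀ θ : ℕ → Z, Sk k N (fun y : Der θ N => gw g y.word) ≤ K := by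
      intro θ
      apply hK
      · intro y
        refine (gw_le_pow g x hg _).trans ?_
        rw [Der.word_length, pow_succ]
        calc x ^ (y.1.1 : ℕ) * x ≤ 1 * x := by
              gcongr
              exact pow_le_one' hx.le _
          _ = x := one_mul x
      · have := sum_Der_le g x hg θ N 0
        simp only [zero_le, if_true, List.range_zero, List.map_nil, gw_nil, one_mul] at this
        rw [tsum_fintype] at this
        refine this.trans ?_
        gcongr
    -- the finite set of keys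
    let FT : Finset (List Z) := (List.finite_length_le Z T).toFinset
    have hFT : ∀ v, v ∈ FT ↔ v.length ≤ T := by
      intro v
      simp [FT]
    let V : Finset (List (WithTop Z)) := FT.image key
    have hV : ∀ w : List Z, kap T w ∈ V := by
      intro w
      apply Finset.mem_image_of_mem
      rw [hFT, List.length_take]
      omega
    have hG : ∀ v ∈ FT, Gk k N T g (key v) ≤ gw g v * C := by
      intro v hv
      rw [hFT] at hv
      refine (Gk_le_Gv k N T g v).trans ?_
      rcases Nat.lt_or_eq_of_le hv with h | h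
      · refine (Gv_short k N T g v h).trans ?_
        calc gw g v = gw g v * 1 := (mul_one _).symm
          _ ≤ gw g v * C := by
            gcongr
            exact le_self_add
      · refine (Gv_long k N T hT g x hg M K hM hKθ hr v h).trans ?_
        gcongr
        exact le_add_self
    have hsum : ∑ κ ∈ V, Gk k N T g κ ≤ B := by
      rw [Finset.sum_image (fun a _ b _ hab => key_injective hab)]
      calc ∑ v ∈ FT, Gk k N T g (key v) ≤ ∑ v ∈ FT, gw g v * C := Finset.sum_le_sum hG
        _ = (∑ v ∈ FT, gw g v) * C := (Finset.sum_mul _ _ _).symm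
        _ ≤ B := by
          rw [hB]
          gcongr
          apply sum_gw_length_le g M _ T FT (fun v hv => (hFT v).mp hv)
          rwa [tsum_fintype]
    have hSH : Sk (k + 1) N g ≤ Hs k N T g V := by
      unfold Sk Hs
      apply ENNReal.tsum_le_tsum
      intro w
      by_cases h : ¬ Chain (k + 1) w ∧ w.length ≤ N
      · rw [if_pos h, if_pos ⟨h.1, h.2, fun a _ => hV _⟩]
      · rw [if_neg h]
        exact zero_le
    refine hSH.trans ((Hs_le_prod k N T g V hV V (fun _ _ _ h _ => h)).trans ?_)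
    exact prod_one_add_le V _ B hBt hsum

end final

end Pool.Agent.Lib.MP_fc2f40_al.Words
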