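import Mathlib

set_option autoImplicit false

set_option linter.unusedSectionVars false

/-!
Poincare-Birkhoff-Witt for a Lie algebra over a commutative ring which is free as a module,
in the form needed later: the canonical map into the universal enveloping algebra is injective
and, over a domain, the universal enveloping algebra is a domain.
-/

namespace Pool.Agent.Lib.MP_fc2f40_al.PBW

open MvPolynomial Finsupp

noncomputable section

variable {R : Type*} [CommRing R] {L : Type*} [LieRing L] [LieAlgebra R L]
variable {I : Type*}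

/-- monic monomial -/
abbrev mon (m : I →₀ ℕ) : MvPolynomial I R := monomial m 1

/-- polynomials all of whose monomials have degree `< n` -/
def W (R : Type*) [CommRing R] (I : Type*) (n : ℕ) : Submodule R (MvPolynomial I R) :=
  Submodule.span R ((fun m : I →₀ ℕ => (monomial m 1 : MvPolynomial I R)) '' {m | m.degree < n})

lemma mon_mem_W {n : ℕ} {m : I →₀ ℕ} (h : m.degree < n) : (mon m : MvPolynomial I R) ∈ W R I n :=
  Submodule.subset_span ⟨m, h, rfl⟩

lemma W_mono {n k : ℕ} (h : n ≤ k) : W R I n ≤ W R I k :=
  Submodule.span_mono (Set.image_mono (fun _ hm => lt_of_lt_of_le hm h))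

lemma X_mul_mon (i : I) (m : I →₀ ℕ) :
    (X i * mon m : MvPolynomial I R) = mon (single i 1 + m) := by
  simp [X, monomial_mul]

lemma X_mul_mem_W {n : ℕ} (i : I) {p : MvPolynomial I R} (hp : p ∈ W R I n) :
    X i * p ∈ W R I (n + 1) := by
  have : W R I n ≤ (W R I (n + 1)).comap (LinearMap.mulLeft R (X i : MvPolynomial I R)) := by
    rw [W, Submodule.span_le]
    rintro _ ⟨m, hm, rfl⟩
    simp only [SetLike.mem_coe, Submodule.mem_comap, LinearMap.mulLeft_apply]
    have hm' : m.degree < n := hm
    have h2 := X_mul_mon (R := R) i m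
    rw [h2]
    apply mon_mem_W
    rw [map_add]
    simp only [degree_single]
    omega
  exact this hp

variable [LinearOrder I]

/-- one step of the recursive definition of the action -/
def step (b : Module.Basis I R L) (a : I → (MvPolynomial I R →ₗ[R] MvPolynomial I R)) (i : I) :
    MvPolynomial I R →ₗ[R] MvPolynomial I R :=
  (basisMonomials I R).constr R (fun m =>
    if h : ∃ j ∈ m.support, j < i then
      let j := m.support.min' ⟨h.choose, h.choose_spec.1⟩
      X i * mon m
        + a j (a i (mon (m - single j 1)) - X i * mon (m - single j 1))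
        + (b.constr R a) ⁅b i, b j⁆ (mon (m - single j 1))
    else X i * mon m)

/-- the action with fuel -/
def act (b : Module.Basis I R L) : ℕ → I → (MvPolynomial I R →ₗ[R] MvPolynomial I R)
  | 0 => fun i => LinearMap.mulLeft R (X i)
  | (n + 1) => step b (act b n)

lemma step_mon_le (b : Module.Basis I R L) (a : I → (MvPolynomial I R →ₗ[R] MvPolynomial I R))
    (i : I) (m : I →₀ ℕ) (h : ∀ j ∈ m.support, i ≤ j) :
    step b a i (mon m) = X i * mon m := by
  have h1 := (basisMonomials I R).constr_basis R (fun m =>
    if h : ∃ j ∈ m.support, j < i then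
      let j := m.support.min' ⟨h.choose, h.choose_spec.1⟩
      X i * mon m
        + a j (a i (mon (m - single j 1)) - X i * mon (m - single j 1))
        + (b.constr R a) ⁅b i, b j⁆ (mon (m - single j 1))
    else X i * mon m) m
  rw [coe_basisMonomials] at h1
  have h2 : ¬ ∃ j ∈ m.support, j < i := by
    rintro ⟨j, hj, hji⟩
    exact absurd (h j hj) (not_le.mpr hji)
  rw [dif_neg h2] at h1
  exact h1

lemma step_mon_gt (b : Module.Basis I R L) (a : I → (MvPolynomial I R →ₗ[R] MvPolynomial I R))
    (i j : I) (m : I →₀ ℕ) (hji : j < i) (h : ∀ k ∈ m.support, j ≤ k) :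
    step b a i (mon (single j 1 + m)) = X i * mon (single j 1 + m)
        + a j (a i (mon m) - X i * mon m)
        + (b.constr R a) ⁅b i, b j⁆ (mon m) := by
  have h1 := (basisMonomials I R).constr_basis R (fun m =>
    if h : ∃ j ∈ m.support, j < i then
      let j := m.support.min' ⟨h.choose, h.choose_spec.1⟩
      X i * mon m
        + a j (a i (mon (m - single j 1)) - X i * mon (m - single j 1))
        + (b.constr R a) ⁅b i, b j⁆ (mon (m - single j 1))
    else X i * mon m) (single j 1 + m)
  rw [coe_basisMonomials] at h1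
  have hjm : j ∈ (single j 1 + m).support := by
    simp
  have h2 : ∃ j' ∈ (single j 1 + m).support, j' < i := ⟨j, hjm, hji⟩
  rw [dif_pos h2] at h1
  have hmin : (single j 1 + m).support.min' ⟨h2.choose, h2.choose_spec.1⟩ = j := by
    apply le_antisymm
    · exact Finset.min'_le _ _ hjm
    · apply Finset.le_min'
      intro k hk
      by_cases hkj : k = j
      · exact hkj.ge
      · apply h
        rw [Finsupp.mem_support_iff] at hk ⊢
        simpa [Finsupp.single_apply, Ne.symm hkj] using hk
  simp only [hmin, add_tsub_cancel_left] at h1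
  exact h1

/-- every nonzero exponent vector splits off its least element -/
lemma exists_min (m : I →₀ ℕ) (i : I) (h : ¬ ∀ j ∈ m.support, i ≤ j) :
    ∃ (j : I) (m' : I →₀ ℕ), m = single j 1 + m' ∧ j < i ∧ ∀ k ∈ m'.support, j ≤ k := by
  push Not at h
  obtain ⟨j0, hj0, hj0i⟩ := h
  let j := m.support.min' ⟨j0, hj0⟩
  have hj : j ∈ m.support := Finset.min'_mem _ _
  refine ⟨j, m - single j 1, ?_, lt_of_le_of_lt (Finset.min'_le _ _ hj0) hj0i, ?_⟩
  · rw [add_tsub_cancel_of_le]
    rw [Finsupp.single_le_iff]
    exact Nat.one_le_iff_ne_zero.mpr (Finsupp.mem_support_iff.mp hj)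
  · intro k hk
    apply Finset.min'_le
    rw [Finsupp.mem_support_iff] at hk ⊢
    intro hk0
    apply hk
    simp [hk0]

lemma act_sub_mem (b : Module.Basis I R L) (n : ℕ) : ∀ (d : ℕ), d ≤ n → ∀ (i : I)
    (p : MvPolynomial I R), p ∈ W R I (d + 1) → act b n i p - X i * p ∈ W R I (d + 1) := by
  induction n with
  | zero =>
    intro d _ i p _
    simp [act]
  | succ n ih =>
    have ih2 : ∀ (d : ℕ), d ≤ n → ∀ (i : I) (p : MvPolynomial I R), p ∈ W R I (d + 1) →
        act b n i p ∈ W R I (d + 1 + 1) := by
      intro d hd i p hp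
      have h1 := W_mono (Nat.le_succ _) (ih d hd i p hp)
      have h2 := X_mul_mem_W i hp
      have := (W R I (d + 1 + 1)).add_mem h1 h2
      simpa using this
    have ih3 : ∀ (d : ℕ), d ≤ n → ∀ (x : L) (p : MvPolynomial I R), p ∈ W R I (d + 1) →
        (b.constr R (act b n)) x p ∈ W R I (d + 1 + 1) := by
      intro d hd x p hp
      rw [Module.Basis.constr_apply, Finsupp.sum, LinearMap.sum_apply]
      refine Submodule.sum_mem _ (fun k _ => ?_)
      rw [LinearMap.smul_apply]
      exact Submodule.smul_mem _ _ (ih2 d hd k p hp)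
    intro d hd i p hp
    have key : W R I (d + 1) ≤
        (W R I (d + 1)).comap (act b (n + 1) i - LinearMap.mulLeft R (X i)) := by
      conv_lhs => rw [W]
      rw [Submodule.span_le]
      rintro _ ⟨m, hm, rfl⟩
      have hm' : m.degree < d + 1 := hm
      simp only [SetLike.mem_coe, Submodule.mem_comap, LinearMap.sub_apply,
        LinearMap.mulLeft_apply, act]
      by_cases h : ∀ j ∈ m.support, i ≤ j
      · have := step_mon_le b (act b n) i m h
        rw [this, sub_self]
        exact Submodule.zero_mem _
      · obtain ⟨j, m', rfl, hji, hm'2⟩ := exists_min m i h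
        rw [step_mon_gt b (act b n) i j m' hji hm'2]
        have hdeg : m'.degree + 1 < d + 1 := by
          have := hm'
          rw [map_add, degree_single] at this
          omega
        have e1 : mon m' ∈ W R I (m'.degree + 1) := mon_mem_W (Nat.lt_succ_self _)
        have e2 := ih m'.degree (by omega) i _ e1
        have e3 := ih2 m'.degree (by omega) j _ e2
        have e4 := ih3 m'.degree (by omega) ⁅b i, b j⁆ _ e1
        have e5 := W_mono (R := R) (I := I) (show m'.degree + 1 + 1 ≤ d + 1 by omega)
        have e6 := (W R I (d + 1)).add_mem (e5 e3) (e5 e4)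
        have : ∀ (a u v : MvPolynomial I R), a + u + v - a = u + v := by intros; ring
        rw [this]
        exact e6
    have := key hp
    simpa using this

lemma act_mem (b : Module.Basis I R L) (n d : ℕ) (hd : d ≤ n) (i : I)
    (p : MvPolynomial I R) (hp : p ∈ W R I (d + 1)) : act b n i p ∈ W R I (d + 1 + 1) := by
  have h1 := W_mono (Nat.le_succ _) (act_sub_mem b n d hd i p hp)
  have h2 := X_mul_mem_W i hp
  have := (W R I (d + 1 + 1)).add_mem h1 h2
  simpa using this

lemma constr_congr (b : Module.Basis I R L) (a a' : I → (MvPolynomial I R →ₗ[R] MvPolynomial I R))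
    (p : MvPolynomial I R) (h : ∀ i, a i p = a' i p) (x : L) :
    (b.constr R a) x p = (b.constr R a') x p := by
  rw [Module.Basis.constr_apply, Module.Basis.constr_apply, Finsupp.sum, Finsupp.sum,
    LinearMap.sum_apply, LinearMap.sum_apply]
  refine Finset.sum_congr rfl (fun k _ => ?_)
  rw [LinearMap.smul_apply, LinearMap.smul_apply, h]

lemma act_stable (b : Module.Basis I R L) (n : ℕ) : ∀ (i : I)
    (p : MvPolynomial I R), p ∈ W R I (n + 1) → act b (n + 1) i p = act b n i p := by
  induction n with
  | zero =>
    intro i p hp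
    have key : W R I (0 + 1) ≤ LinearMap.ker (act b (0 + 1) i - act b 0 i) := by
      rw [W, Submodule.span_le]
      rintro _ ⟨m, hm, rfl⟩
      have hm' : m.degree < 0 + 1 := hm
      have hm0 : m = 0 := by
        have : m.degree = 0 := by omega
        exact (Finsupp.degree_eq_zero_iff m).mp this
      subst hm0
      simp only [SetLike.mem_coe, LinearMap.mem_ker, LinearMap.sub_apply, act]
      have := step_mon_le b (act b 0) i 0 (by simp)
      simp only [act] at this
      rw [this]
      exact sub_self _
    have := key hp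
    rw [LinearMap.mem_ker, LinearMap.sub_apply, sub_eq_zero] at this
    exact this
  | succ n ih =>
    intro i p hp
    have key : W R I (n + 1 + 1) ≤ LinearMap.ker (act b (n + 1 + 1) i - act b (n + 1) i) := by
      rw [W, Submodule.span_le]
      rintro _ ⟨m, hm, rfl⟩
      have hm' : m.degree < n + 1 + 1 := hm
      simp only [SetLike.mem_coe, LinearMap.mem_ker, LinearMap.sub_apply]
      rw [sub_eq_zero]
      by_cases h : ∀ j ∈ m.support, i ≤ j
      · have h1 := step_mon_le b (act b (n + 1)) i m h
        have h2 := step_mon_le b (act b n) i m h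
        change step b (act b (n + 1)) i (mon m) = step b (act b n) i (mon m)
        rw [h1, h2]
      · obtain ⟨j, m', rfl, hji, hm'2⟩ := exists_min m i h
        change step b (act b (n + 1)) i (mon _) = step b (act b n) i (mon _)
        rw [step_mon_gt b (act b n) i j m' hji hm'2,
          step_mon_gt b (act b (n + 1)) i j m' hji hm'2]
        have hdeg : m'.degree + 1 < n + 1 + 1 := by
          have := hm'
          rw [map_add, degree_single] at this
          omega
        have e1 : mon m' ∈ W R I (n + 1) := mon_mem_W (by omega)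
        have e2 := act_sub_mem b n n le_rfl i _ e1
        rw [ih i _ e1, ih j _ e2]
        rw [constr_congr b _ _ _ (fun k => ih k _ e1)]
    have := key hp
    rw [LinearMap.mem_ker, LinearMap.sub_apply, sub_eq_zero] at this
    exact this

lemma act_stable' (b : Module.Basis I R L) (n k : ℕ) (i : I)
    (p : MvPolynomial I R) (hp : p ∈ W R I (n + 1)) : act b (n + k) i p = act b n i p := by
  induction k with
  | zero => rfl
  | succ k ih =>
    rw [← add_assoc, act_stable b (n + k) i p (W_mono (by omega) hp), ih]

/-- the action of basis vectors -/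
def A (b : Module.Basis I R L) (i : I) : MvPolynomial I R →ₗ[R] MvPolynomial I R :=
  (basisMonomials I R).constr R (fun m => act b m.degree i (mon m))

/-- the action of the Lie algebra -/
def AL (b : Module.Basis I R L) : L →ₗ[R] (MvPolynomial I R →ₗ[R] MvPolynomial I R) :=
  b.constr R (A b)

lemma A_mon (b : Module.Basis I R L) (i : I) (m : I →₀ ℕ) :
    A b i (mon m) = act b m.degree i (mon m) := by
  have h1 := (basisMonomials I R).constr_basis R (fun m => act b m.degree i (mon m)) m
  rw [coe_basisMonomials] at h1
  exact h1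

lemma A_eq_act (b : Module.Basis I R L) (n : ℕ) (i : I) (p : MvPolynomial I R)
    (hp : p ∈ W R I (n + 1)) : A b i p = act b n i p := by
  have key : W R I (n + 1) ≤ LinearMap.ker (A b i - act b n i) := by
    rw [W, Submodule.span_le]
    rintro _ ⟨m, hm, rfl⟩
    have hm' : m.degree < n + 1 := hm
    simp only [SetLike.mem_coe, LinearMap.mem_ker, LinearMap.sub_apply]
    rw [sub_eq_zero]
    have h1 := A_mon b i m
    rw [h1]
    obtain ⟨k, hk⟩ : ∃ k, n = m.degree + k := ⟨n - m.degree, by omega⟩
    rw [hk]
    exact (act_stable' b m.degree k i _ (mon_mem_W (Nat.lt_succ_self _))).symm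
  have := key hp
  rw [LinearMap.mem_ker, LinearMap.sub_apply, sub_eq_zero] at this
  exact this

@[simp] lemma AL_basis (b : Module.Basis I R L) (i : I) : AL b (b i) = A b i := by
  simp [AL]

lemma AL_eq_act (b : Module.Basis I R L) (n : ℕ) (x : L) (p : MvPolynomial I R)
    (hp : p ∈ W R I (n + 1)) : AL b x p = (b.constr R (act b n)) x p :=
  constr_congr b _ _ _ (fun k => A_eq_act b n k p hp) x

lemma A_sub_mem (b : Module.Basis I R L) (d : ℕ) (i : I) (p : MvPolynomial I R)
    (hp : p ∈ W R I (d + 1)) : A b i p - X i * p ∈ W R I (d + 1) := by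
  rw [A_eq_act b d i p hp]
  exact act_sub_mem b d d le_rfl i p hp

lemma exists_W (p : MvPolynomial I R) : ∃ n, p ∈ W R I (n + 1) := by
  induction p using MvPolynomial.induction_on' with
  | monomial m r =>
    refine ⟨m.degree, ?_⟩
    have : (monomial m r : MvPolynomial I R) = r • mon m := by simp [smul_monomial]
    rw [this]
    exact Submodule.smul_mem _ _ (mon_mem_W (Nat.lt_succ_self _))
  | add p q hp hq =>
    obtain ⟨n, hn⟩ := hp
    obtain ⟨k, hk⟩ := hq
    exact ⟨n + k, Submodule.add_mem _ (W_mono (by omega) hn) (W_mono (by omega) hk)⟩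

lemma A_mon_le (b : Module.Basis I R L) (i : I) (m : I →₀ ℕ) (h : ∀ j ∈ m.support, i ≤ j) :
    A b i (mon m) = X i * mon m := by
  rw [A_eq_act b (m.degree + 1) i _ (mon_mem_W (by omega))]
  exact step_mon_le b _ i m h

lemma A_mon_gt (b : Module.Basis I R L) (i j : I) (m : I →₀ ℕ) (hji : j < i)
    (h : ∀ k ∈ m.support, j ≤ k) :
    A b i (A b j (mon m)) = A b j (A b i (mon m)) + AL b ⁅b i, b j⁆ (mon m) := by
  have h0 : (mon m : MvPolynomial I R) ∈ W R I (m.degree + 1) := mon_mem_W (by omega)
  have h0' : (mon m : MvPolynomial I R) ∈ W R I (m.degree + 1 + 1) := mon_mem_W (by omega)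
  have hX : (X j * mon m : MvPolynomial I R) = mon (single j 1 + m) := X_mul_mon j m
  have h3 := A_sub_mem b m.degree i _ h0
  have h3' := W_mono (Nat.le_succ _) h3
  rw [A_mon_le b j m h, hX]
  rw [A_eq_act b (m.degree + 1 + 1) i (mon (single j 1 + m))
    (mon_mem_W (by rw [map_add, degree_single]; omega))]
  change step b (act b (m.degree + 1)) i (mon (single j 1 + m)) = _
  rw [step_mon_gt b _ i j m hji h]
  rw [← A_eq_act b (m.degree + 1) i (mon m) h0', ← AL_eq_act b (m.degree + 1) _ (mon m) h0',
    ← A_eq_act b (m.degree + 1) j _ h3', map_sub]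
  have hX2 : (X i * mon m : MvPolynomial I R) = mon (single i 1 + m) := X_mul_mon i m
  have h5 : A b j (X i * mon m) = X j * (X i * mon m) := by
    rw [hX2]
    apply A_mon_le
    intro k hk
    by_cases hki : k = i
    · rw [hki]; exact hji.le
    · apply h
      rw [Finsupp.mem_support_iff] at hk ⊢
      simpa [Finsupp.single_apply, Ne.symm hki] using hk
  rw [h5, ← hX]
  ring

/-- commutation defect on basis vectors -/
def Comm (b : Module.Basis I R L) (x y : L) (p : MvPolynomial I R) : Prop :=
  AL b x (AL b y p) - AL b y (AL b x p) = AL b ⁅x, y⁆ p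

lemma comm_of_basis (b : Module.Basis I R L) (p : MvPolynomial I R)
    (h : ∀ i j, Comm b (b i) (b j) p) (x y : L) : Comm b x y p := by
  unfold Comm at *
  let F : L →ₗ[R] L →ₗ[R] MvPolynomial I R := LinearMap.mk₂ R
    (fun x y => AL b x (AL b y p) - AL b y (AL b x p) - AL b ⁅x, y⁆ p)
    (by intro x x' y; simp [add_lie]; abel)
    (by intro r x y; simp [smul_sub])
    (by intro x y y'; simp [lie_add]; abel)
    (by intro r x y; simp [smul_sub])
  have hF : F = 0 := by
    apply b.ext; intro i
    apply b.ext; intro j
    simp only [F, LinearMap.mk₂_apply, LinearMap.zero_apply]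
    rw [h i j, sub_self]
  have := congrArg (fun G => G x y) hF
  simp only [F, LinearMap.mk₂_apply, LinearMap.zero_apply] at this
  exact sub_eq_zero.mp this

lemma comm_symm (b : Module.Basis I R L) (x y : L) (p : MvPolynomial I R)
    (h : Comm b x y p) : Comm b y x p := by
  unfold Comm at *
  rw [← lie_skew y x, map_neg, LinearMap.neg_apply, ← h]
  abel

lemma comm_add (b : Module.Basis I R L) (x y : L) (p q : MvPolynomial I R)
    (h : Comm b x y p) (h' : Comm b x y q) : Comm b x y (p + q) := by
  unfold Comm at *
  simp only [map_add]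
  rw [← h, ← h']
  abel

lemma comm_smul (b : Module.Basis I R L) (x y : L) (r : R) (p : MvPolynomial I R)
    (h : Comm b x y p) : Comm b x y (r • p) := by
  unfold Comm at *
  simp only [map_smul]
  rw [← h, smul_sub]

lemma comm_zero (b : Module.Basis I R L) (x y : L) : Comm b x y 0 := by
  simp [Comm]

lemma comm_gt_le (b : Module.Basis I R L) (i j : I) (m : I →₀ ℕ) (hji : j < i)
    (h : ∀ k ∈ m.support, j ≤ k) : Comm b (b i) (b j) (mon m) := by
  unfold Comm
  rw [AL_basis, AL_basis, A_mon_gt b i j m hji h]
  abel

lemma supp_add_le (j k : I) (m : I →₀ ℕ) (hkj : k ≤ j) (h : ∀ l ∈ m.support, k ≤ l) :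
    ∀ l ∈ (single j 1 + m).support, k ≤ l := by
  intro l hl
  by_cases hlj : l = j
  · rw [hlj]; exact hkj
  · apply h
    rw [Finsupp.mem_support_iff] at hl ⊢
    simpa [Finsupp.single_apply, Ne.symm hlj] using hl

lemma comm_step (b : Module.Basis I R L) (n : ℕ)
    (ih : ∀ p ∈ W R I n, ∀ x y, Comm b x y p) (m : I →₀ ℕ) (hm : m.degree < n + 1)
    (i j : I) (hji : j < i) : Comm b (b i) (b j) (mon m) := by
  by_cases h : ∀ k ∈ m.support, j ≤ k
  · exact comm_gt_le b i j m hji h
  · obtain ⟨k, m', rfl, hkj, hk⟩ := exists_min m j h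
    have hdeg : m'.degree < n := by
      have := hm
      rw [map_add, degree_single] at this
      omega
    set P : MvPolynomial I R := mon m' with hP
    have hPW : P ∈ W R I (m'.degree + 1) := mon_mem_W (by omega)
    have hPn : P ∈ W R I n := mon_mem_W hdeg
    have e0 : (mon (single k 1 + m') : MvPolynomial I R) = AL b (b k) P := by
      rw [AL_basis, hP, A_mon_le b k m' hk, X_mul_mon]
    -- commutation on `A l P` with `k`
    have e1 : ∀ l l' : I, k < l → k < l' → Comm b (b l) (b k) (AL b (b l') P) := by
      intro l l' hl hl'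
      have q1 := A_sub_mem b m'.degree l' P hPW
      have q2 : Comm b (b l) (b k) (A b l' P - X l' * P) :=
        ih _ (W_mono (by omega) q1) _ _
      have q3 : Comm b (b l) (b k) (X l' * P) := by
        rw [hP, X_mul_mon]
        exact comm_gt_le b l k _ hl (supp_add_le l' k m' hl'.le hk)
      have q4 := comm_add b _ _ _ _ q2 q3
      rw [sub_add_cancel] at q4
      rwa [AL_basis]
    have hki : k < i := lt_trans hkj hji
    have c1 := e1 i j hki hkj
    have c2 := e1 j i hkj hki
    have c3 := ih P hPn (b i) ⁅b j, b k⁆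
    have c4 := ih P hPn (b j) ⁅b i, b k⁆
    have c5 := ih P hPn (b i) (b j)
    have c6 := ih P hPn ⁅b i, b j⁆ (b k)
    have c7 := ih P hPn (b j) (b k)
    have c8 := ih P hPn (b i) (b k)
    unfold Comm at *
    rw [e0]
    have f1 : AL b (b j) (AL b (b k) P) = AL b (b k) (AL b (b j) P) + AL b ⁅b j, b k⁆ P := by
      rw [← c7]; abel
    have f2 : AL b (b i) (AL b (b k) P) = AL b (b k) (AL b (b i) P) + AL b ⁅b i, b k⁆ P := by
      rw [← c8]; abel
    have f3 : AL b (b i) (AL b (b k) (AL b (b j) P)) =
        AL b (b k) (AL b (b i) (AL b (b j) P)) + AL b ⁅b i, b k⁆ (AL b (b j) P) := by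
      rw [← c1]; abel
    have f4 : AL b (b j) (AL b (b k) (AL b (b i) P)) =
        AL b (b k) (AL b (b j) (AL b (b i) P)) + AL b ⁅b j, b k⁆ (AL b (b i) P) := by
      rw [← c2]; abel
    have f5 : AL b (b i) (AL b ⁅b j, b k⁆ P) =
        AL b ⁅b j, b k⁆ (AL b (b i) P) + AL b ⁅b i, ⁅b j, b k⁆⁆ P := by
      rw [← c3]; abel
    have f6 : AL b (b j) (AL b ⁅b i, b k⁆ P) =
        AL b ⁅b i, b k⁆ (AL b (b j) P) + AL b ⁅b j, ⁅b i, b k⁆⁆ P := by
      rw [← c4]; abel
    have f7 : AL b (b i) (AL b (b j) P) =
        AL b (b j) (AL b (b i) P) + AL b ⁅b i, b j⁆ P := by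
      rw [← c5]; abel
    have f8 : AL b ⁅b i, b j⁆ (AL b (b k) P) =
        AL b (b k) (AL b ⁅b i, b j⁆ P) + AL b ⁅⁅b i, b j⁆, b k⁆ P := by
      rw [← c6]; abel
    have f9 : ⁅b i, ⁅b j, b k⁆⁆ = ⁅⁅b i, b j⁆, b k⁆ + ⁅b j, ⁅b i, b k⁆⁆ := leibniz_lie _ _ _
    rw [f1, f2, map_add, map_add, f3, f4, f5, f6, f7, f8, f9, map_add, map_add,
      LinearMap.add_apply]
    abel

lemma comm_all (b : Module.Basis I R L) (n : ℕ) : ∀ p ∈ W R I n, ∀ x y, Comm b x y p := by
  induction n with
  | zero =>
    intro p hp x y
    have : p = 0 := by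
      have h0 : W R I 0 = ⊥ := by
        rw [W]
        simp
      rw [h0] at hp
      exact hp
    rw [this]
    exact comm_zero b x y
  | succ n ih =>
    intro p hp
    rw [W] at hp
    induction hp using Submodule.span_induction with
    | mem p hp =>
      obtain ⟨m, hm, rfl⟩ := hp
      apply comm_of_basis
      intro i j
      rcases lt_trichotomy i j with hij | hij | hij
      · exact comm_symm b _ _ _ (comm_step b n ih m hm j i hij)
      · subst hij
        unfold Comm
        simp
      · exact comm_step b n ih m hm i j hij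
    | zero => intro x y; exact comm_zero b x y
    | add p q _ _ hp hq => intro x y; exact comm_add b x y _ _ (hp x y) (hq x y)
    | smul r p _ hp => intro x y; exact comm_smul b x y r _ (hp x y)

lemma comm_univ (b : Module.Basis I R L) (x y : L) (p : MvPolynomial I R) : Comm b x y p := by
  obtain ⟨n, hn⟩ := exists_W p
  exact comm_all b _ p hn x y

attribute [local instance 100] LieRing.ofAssociativeRing

/-- the representation of `L` on polynomials -/
def rho (b : Module.Basis I R L) : L →ₗ⁅R⁆ Module.End R (MvPolynomial I R) :=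
  { AL b with
    map_lie' := by
      intro x y
      apply LinearMap.ext
      intro p
      have h := comm_univ b x y p
      unfold Comm at h
      simp only [LieRing.of_associative_ring_bracket]
      exact h.symm }

lemma rho_apply (b : Module.Basis I R L) (x : L) (p : MvPolynomial I R) :
    rho b x p = AL b x p := rfl

/-- the representation of the enveloping algebra -/
def rhoU (b : Module.Basis I R L) :
    UniversalEnvelopingAlgebra R L →ₐ[R] Module.End R (MvPolynomial I R) :=
  UniversalEnvelopingAlgebra.lift R (rho b)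

lemma rhoU_ι (b : Module.Basis I R L) (x : L) (p : MvPolynomial I R) :
    rhoU b (UniversalEnvelopingAlgebra.ι R x) p = AL b x p := by
  rw [rhoU, UniversalEnvelopingAlgebra.lift_ι_apply]
  rfl

/-- evaluation at the vacuum -/
def Psi (b : Module.Basis I R L) : UniversalEnvelopingAlgebra R L →ₗ[R] MvPolynomial I R :=
  (LinearMap.applyₗ (1 : MvPolynomial I R)).comp (rhoU b).toLinearMap

lemma Psi_apply (b : Module.Basis I R L) (u : UniversalEnvelopingAlgebra R L) :
    Psi b u = rhoU b u 1 := rfl

/-- ordered monomials -/
def Phi (b : Module.Basis I R L) : MvPolynomial I R →ₗ[R] UniversalEnvelopingAlgebra R L :=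
  (basisMonomials I R).constr R (fun m =>
    (((Finsupp.toMultiset m).sort (· ≤ ·)).map (fun i => UniversalEnvelopingAlgebra.ι R (b i))).prod)

lemma Phi_mon (b : Module.Basis I R L) (m : I →₀ ℕ) : Phi b (mon m) =
    (((Finsupp.toMultiset m).sort (· ≤ ·)).map
      (fun i => UniversalEnvelopingAlgebra.ι R (b i))).prod := by
  have h1 := (basisMonomials I R).constr_basis R (fun m : I →₀ ℕ =>
    (((Finsupp.toMultiset m).sort (· ≤ ·)).map
      (fun i => UniversalEnvelopingAlgebra.ι R (b i))).prod) m
  rw [coe_basisMonomials] at h1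
  exact h1

lemma Phi_X_mul (b : Module.Basis I R L) (i : I) (m : I →₀ ℕ) (h : ∀ j ∈ m.support, i ≤ j) :
    Phi b (X i * mon m) = UniversalEnvelopingAlgebra.ι R (b i) * Phi b (mon m) := by
  rw [X_mul_mon, Phi_mon, Phi_mon, Finsupp.toMultiset_add, Finsupp.toMultiset_single,
    one_smul, Multiset.singleton_add, Multiset.sort_cons, List.map_cons, List.prod_cons]
  intro j hj
  apply h
  rwa [Finsupp.mem_toMultiset] at hj

lemma Phi_A_W (b : Module.Basis I R L) (n : ℕ) : ∀ p ∈ W R I n, ∀ x : L,
    Phi b (AL b x p) = UniversalEnvelopingAlgebra.ι R x * Phi b p := by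
  induction n with
  | zero =>
    intro p hp x
    have : p = 0 := by
      have h0 : W R I 0 = ⊥ := by
        rw [W]
        simp
      rw [h0] at hp
      exact hp
    rw [this]
    simp
  | succ n ih =>
    intro p hp
    rw [W] at hp
    induction hp using Submodule.span_induction with
    | mem p hp =>
      obtain ⟨m, hm, rfl⟩ := hp
      change m.degree < n + 1 at hm
      have key : ∀ i : I, Phi b (A b i (mon m)) =
          UniversalEnvelopingAlgebra.ι R (b i) * Phi b (mon m) := by
        intro i
        by_cases h : ∀ j ∈ m.support, i ≤ j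
        · rw [A_mon_le b i m h, Phi_X_mul b i m h]
        · obtain ⟨j, m', rfl, hji, hj⟩ := exists_min m i h
          have hdeg : m'.degree < n := by
            rw [map_add, degree_single] at hm
            omega
          have e0 : (mon (single j 1 + m') : MvPolynomial I R) = A b j (mon m') := by
            rw [A_mon_le b j m' hj, X_mul_mon]
          have e1 := A_sub_mem b m'.degree i (mon m') (mon_mem_W (by omega))
          have e2 : ∀ k : I, Phi b (A b k (mon m')) =
              UniversalEnvelopingAlgebra.ι R (b k) * Phi b (mon m') := by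
            intro k
            have := ih (mon m') (mon_mem_W hdeg) (b k)
            rwa [AL_basis] at this
          have e3 : Phi b (A b j (A b i (mon m') - X i * mon m')) =
              UniversalEnvelopingAlgebra.ι R (b j) * Phi b (A b i (mon m') - X i * mon m') := by
            have := ih _ (W_mono (show m'.degree + 1 ≤ n by omega) e1) (b j)
            rwa [AL_basis] at this
          have e4 : Phi b (A b j (X i * mon m')) =
              UniversalEnvelopingAlgebra.ι R (b j) * Phi b (X i * mon m') := by
            have hs : ∀ l ∈ (single i 1 + m').support, j ≤ l := supp_add_le i j m' hji.le hj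
            have h1 := A_mon_le b j (single i 1 + m') hs
            have h2 := Phi_X_mul b j (single i 1 + m') hs
            rw [X_mul_mon i m', h1, h2]
          have e5 : Phi b (A b j (A b i (mon m'))) =
              UniversalEnvelopingAlgebra.ι R (b j) * Phi b (A b i (mon m')) := by
            have h1 : A b i (mon m') = (A b i (mon m') - X i * mon m') + X i * mon m' := by ring
            rw [h1, map_add, map_add, e3, e4, map_add, mul_add]
          have e6 := ih (mon m') (mon_mem_W hdeg) ⁅b i, b j⁆
          have e7 : (UniversalEnvelopingAlgebra.ι R ⁅b i, b j⁆ : UniversalEnvelopingAlgebra R L) =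
              UniversalEnvelopingAlgebra.ι R (b i) * UniversalEnvelopingAlgebra.ι R (b j)
              - UniversalEnvelopingAlgebra.ι R (b j) * UniversalEnvelopingAlgebra.ι R (b i) := by
            rw [LieHom.map_lie, LieRing.of_associative_ring_bracket]
          rw [e0, A_mon_gt b i j m' hji hj, map_add, e5, e2 i, e6, e2 j, e7]
          noncomm_ring
      intro x
      have hlin : (Phi b).comp ((LinearMap.applyₗ (mon m : MvPolynomial I R)).comp (AL b)) =
          (LinearMap.mulRight R (Phi b (mon m))).comp
            (UniversalEnvelopingAlgebra.ι R : L →ₗ⁅R⁆ UniversalEnvelopingAlgebra R L).toLinearMap := by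
        apply b.ext
        intro i
        have := key i
        rw [← AL_basis] at this
        exact this
      exact congrArg (fun G => G x) hlin
    | zero => intro x; simp
    | add p q _ _ hp hq => intro x; simp only [map_add, hp x, hq x, mul_add]
    | smul r p _ hp => intro x; simp only [map_smul, hp x, mul_smul_comm]

lemma Phi_AL (b : Module.Basis I R L) (x : L) (p : MvPolynomial I R) :
    Phi b (AL b x p) = UniversalEnvelopingAlgebra.ι R x * Phi b p := by
  obtain ⟨n, hn⟩ := exists_W p
  exact Phi_A_W b _ p hn x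

omit [LinearOrder I] in
/-- induction principle for the enveloping algebra -/
lemma U_induction {C : UniversalEnvelopingAlgebra R L → Prop}
    (algebraMap : ∀ r, C (algebraMap R _ r)) (ι : ∀ x, C (UniversalEnvelopingAlgebra.ι R x))
    (mul : ∀ a b, C a → C b → C (a * b)) (add : ∀ a b, C a → C b → C (a + b))
    (a : UniversalEnvelopingAlgebra R L) : C a := by
  obtain ⟨t, rfl⟩ : ∃ t, UniversalEnvelopingAlgebra.mkAlgHom R L t = a :=
    Quotient.exists_rep a
  induction t using TensorAlgebra.induction with
  | algebraMap r => rw [AlgHom.commutes]; exact algebraMap r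
  | ι x => exact ι x
  | mul a b ha hb => rw [map_mul]; exact mul _ _ ha hb
  | add a b ha hb => rw [map_add]; exact add _ _ ha hb

lemma Phi_rhoU (b : Module.Basis I R L) (u : UniversalEnvelopingAlgebra R L) :
    ∀ p : MvPolynomial I R, Phi b (rhoU b u p) = u * Phi b p := by
  induction u using U_induction with
  | algebraMap r =>
    intro p
    rw [AlgHom.commutes, Module.algebraMap_end_apply, map_smul, Algebra.smul_def]
  | ι x => intro p; rw [rhoU_ι, Phi_AL]
  | mul a c ha hc => intro p; rw [map_mul, Module.End.mul_apply, ha, hc, mul_assoc]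
  | add a c ha hc => intro p; rw [map_add, LinearMap.add_apply, map_add, ha, hc, add_mul]

omit [LinearOrder I] in
lemma mon_zero : (mon 0 : MvPolynomial I R) = 1 := rfl

lemma Phi_one (b : Module.Basis I R L) : Phi b 1 = 1 := by
  rw [← mon_zero, Phi_mon b 0]
  simp

lemma Phi_Psi (b : Module.Basis I R L) (u : UniversalEnvelopingAlgebra R L) :
    Phi b (Psi b u) = u := by
  rw [Psi_apply, Phi_rhoU, Phi_one, mul_one]

lemma Psi_ι (b : Module.Basis I R L) (i : I) :
    Psi b (UniversalEnvelopingAlgebra.ι R (b i)) = X i := by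
  rw [Psi_apply, rhoU_ι, AL_basis, ← mon_zero, A_mon_le b i 0 (by simp), mon_zero, mul_one]

lemma coeff_Psi_ι (b : Module.Basis I R L) (i : I) (x : L) :
    coeff (single i 1) (Psi b (UniversalEnvelopingAlgebra.ι R x)) = b.repr x i := by
  have h : (lcoeff R (single i 1 : I →₀ ℕ)).comp ((Psi b).comp
      (UniversalEnvelopingAlgebra.ι R : L →ₗ⁅R⁆ UniversalEnvelopingAlgebra R L).toLinearMap)
      = b.coord i := by
    apply b.ext
    intro j
    have h1 := Psi_ι b j
    simp only [LinearMap.comp_apply, LieHom.coe_toLinearMap, h1, lcoeff_apply,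
      Module.Basis.coord_apply, Module.Basis.repr_self]
    rw [coeff_X, Finsupp.single_apply]
    congr 1
    simp [Finsupp.single_left_inj]
  exact congrArg (fun G => G x) h

theorem ι_injective_of_basis (b : Module.Basis I R L) :
    Function.Injective (UniversalEnvelopingAlgebra.ι R : L → UniversalEnvelopingAlgebra R L) := by
  intro x y hxy
  apply b.repr.injective
  ext i
  rw [← coeff_Psi_ι b i x, ← coeff_Psi_ι b i y, hxy]

lemma foldr_A (b : Module.Basis I R L) (d : ℕ) (p : MvPolynomial I R) (hp : p ∈ W R I (d + 1))
    (l : List I) :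
    l.foldr (fun i q => A b i q) p ∈ W R I (l.length + d + 1) ∧
    l.foldr (fun i q => A b i q) p - (l.map X).prod * p ∈ W R I (l.length + d) := by
  induction l with
  | nil => simp [hp]
  | cons i l ih =>
    obtain ⟨h1, h2⟩ := ih
    set F := l.foldr (fun i q => A b i q) p with hF
    have h3 := A_sub_mem b (l.length + d) i F h1
    have h4 := X_mul_mem_W i h2
    have h5 := X_mul_mem_W i h1
    have e : (i :: l).length = l.length + 1 := rfl
    constructor
    · have h6 := Submodule.add_mem _ (W_mono (Nat.le_succ _) h3) h5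
      rw [sub_add_cancel] at h6
      have h7 : l.length + d + 1 + 1 = (i :: l).length + d + 1 := by rw [e]; omega
      rw [← h7]
      exact h6
    · have h6 := Submodule.add_mem _ h3 h4
      have h7 : l.length + d + 1 = (i :: l).length + d := by rw [e]; omega
      rw [← h7, List.foldr_cons, List.map_cons, List.prod_cons, ← hF]
      have h8 : A b i F - X i * (l.map X).prod * p =
          A b i F - X i * F + X i * (F - (l.map X).prod * p) := by ring
      rw [h8]
      exact h6

lemma rhoU_prod (b : Module.Basis I R L) (l : List I) (p : MvPolynomial I R) :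
    rhoU b ((l.map (fun i => UniversalEnvelopingAlgebra.ι R (b i))).prod) p =
      l.foldr (fun i q => A b i q) p := by
  induction l with
  | nil => simp
  | cons i l ih =>
    rw [List.map_cons, List.prod_cons, map_mul, Module.End.mul_apply, ih, rhoU_ι, AL_basis,
      List.foldr_cons]

omit [LinearOrder I] in
lemma degree_eq_card (m : I →₀ ℕ) : (Finsupp.toMultiset m).card = m.degree := by
  rw [Finsupp.card_toMultiset]
  rfl

lemma prod_X_sort (m : I →₀ ℕ) :
    (((Finsupp.toMultiset m).sort (· ≤ ·)).map X).prod = (mon m : MvPolynomial I R) := by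
  rw [← Multiset.prod_coe, ← Multiset.map_coe, Multiset.sort_eq, Finsupp.toMultiset_map,
    Finsupp.prod_toMultiset]
  rw [Finsupp.prod_mapDomain_index (by simp) (by intro _ _ _; rw [pow_add])]
  rw [mon, monomial_eq, C_1, one_mul]

lemma rhoU_Phi_mon (b : Module.Basis I R L) (m : I →₀ ℕ) (d : ℕ) (p : MvPolynomial I R)
    (hp : p ∈ W R I (d + 1)) :
    rhoU b (Phi b (mon m)) p - mon m * p ∈ W R I (m.degree + d) := by
  have h := (foldr_A b d p hp ((Finsupp.toMultiset m).sort (· ≤ ·))).2
  rw [prod_X_sort, Multiset.length_sort, degree_eq_card] at h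
  rw [Phi_mon, rhoU_prod]
  exact h

lemma rhoU_Phi (b : Module.Basis I R L) (n d : ℕ) (p : MvPolynomial I R)
    (hp : p ∈ W R I (d + 1)) (q : MvPolynomial I R) (hq : q ∈ W R I (n + 1)) :
    rhoU b (Phi b q) p - q * p ∈ W R I (n + d) := by
  rw [W] at hq
  induction hq using Submodule.span_induction with
  | mem q hq =>
    obtain ⟨m, hm, rfl⟩ := hq
    change m.degree < n + 1 at hm
    exact W_mono (by omega) (rhoU_Phi_mon b m d p hp)
  | zero => simp
  | add q r _ _ hq hr =>
    have : rhoU b (Phi b (q + r)) p - (q + r) * p =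
        (rhoU b (Phi b q) p - q * p) + (rhoU b (Phi b r) p - r * p) := by
      rw [map_add, map_add, LinearMap.add_apply]; ring
    rw [this]
    exact Submodule.add_mem _ hq hr
  | smul r q _ hq =>
    have : rhoU b (Phi b (r • q)) p - (r • q) * p = r • (rhoU b (Phi b q) p - q * p) := by
      rw [map_smul, map_smul, LinearMap.smul_apply, smul_sub, smul_mul_assoc]
    rw [this]
    exact Submodule.smul_mem _ _ hq

omit [LinearOrder I] in
lemma coeff_of_mem_W (n : ℕ) (p : MvPolynomial I R) (hp : p ∈ W R I n) (m : I →₀ ℕ)
    (hm : n ≤ m.degree) : coeff m p = 0 := by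
  classical
  rw [W] at hp
  induction hp using Submodule.span_induction with
  | mem q hq =>
    obtain ⟨m', hm', rfl⟩ := hq
    change m'.degree < n at hm'
    rw [coeff_monomial, if_neg]
    rintro rfl
    omega
  | zero => simp
  | add q r _ _ hq hr => rw [coeff_add, hq, hr, add_zero]
  | smul r q _ hq => rw [coeff_smul, hq, smul_zero]

omit [LinearOrder I] in
lemma mem_W_totalDegree (p : MvPolynomial I R) : p ∈ W R I (p.totalDegree + 1) := by
  rw [p.as_sum]
  refine Submodule.sum_mem _ (fun m hm => ?_)
  have h1 : (monomial m (coeff m p) : MvPolynomial I R) = coeff m p • mon m := by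
    simp [smul_monomial]
  rw [h1]
  refine Submodule.smul_mem _ _ (mon_mem_W ?_)
  have := le_totalDegree hm
  rw [← p.as_sum]
  have e : m.degree = m.sum fun _ e => e := rfl
  omega

omit [LinearOrder I] in
lemma totalDegree_lt_of_mem_W (n : ℕ) (p : MvPolynomial I R) (hp : p ∈ W R I n) (h0 : p ≠ 0) :
    p.totalDegree < n := by
  obtain ⟨m, hm⟩ := MvPolynomial.support_nonempty.mpr h0
  obtain ⟨m, hm1, hm2⟩ : ∃ m ∈ p.support, (m.sum fun _ e => e) = p.totalDegree := by
    obtain ⟨m, hm1, hm2⟩ := Finset.exists_mem_eq_sup p.support ⟨m, hm⟩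
      (fun s => s.sum fun _ e => e)
    exact ⟨m, hm1, hm2.symm⟩
  by_contra hcon
  push Not at hcon
  have := coeff_of_mem_W n p hp m (by
    have e : m.degree = m.sum fun _ e => e := rfl
    omega)
  exact (MvPolynomial.mem_support_iff.mp hm1) this

theorem noZeroDivisors_of_basis [IsDomain R] (b : Module.Basis I R L)
    (u v : UniversalEnvelopingAlgebra R L) (hu : u ≠ 0) (hv : v ≠ 0) : u * v ≠ 0 := by
  intro huv
  have hq : Psi b u ≠ 0 := by
    intro h; apply hu; rw [← Phi_Psi b u, h, map_zero]
  have hp : Psi b v ≠ 0 := by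
    intro h; apply hv; rw [← Phi_Psi b v, h, map_zero]
  have h1 := rhoU_Phi b (Psi b u).totalDegree (Psi b v).totalDegree (Psi b v)
    (mem_W_totalDegree _) (Psi b u) (mem_W_totalDegree _)
  rw [Phi_Psi] at h1
  have h2 : rhoU b u (Psi b v) = 0 := by
    have : Psi b (u * v) = rhoU b u (Psi b v) := by
      rw [Psi_apply, map_mul]; rfl
    rw [← this, huv, map_zero]
  rw [h2, zero_sub] at h1
  have h3 := (W R I _).neg_mem h1
  rw [neg_neg] at h3
  have h4 := totalDegree_lt_of_mem_W _ _ h3 (mul_ne_zero hq hp)
  rw [totalDegree_mul_of_isDomain hq hp] at h4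
  omega

end

section field

attribute [local instance 100] LieRing.ofAssociativeRing

variable (K : Type*) [Field K] (L : Type*) [LieRing L] [LieAlgebra K L]

/-- PBW: the canonical map is injective -/
theorem ι_injective :
    Function.Injective (UniversalEnvelopingAlgebra.ι K : L → UniversalEnvelopingAlgebra K L) := by
  classical
  let b := Module.Basis.ofVectorSpace K L
  let _ : LinearOrder (Module.Basis.ofVectorSpaceIndex K L) := linearOrderOfSTO WellOrderingRel
  exact ι_injective_of_basis b

/-- PBW: the enveloping algebra has no zero divisors -/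
theorem mul_ne_zero_U (u v : UniversalEnvelopingAlgebra K L) (hu : u ≠ 0) (hv : v ≠ 0) :
    u * v ≠ 0 := by
  classical
  let b := Module.Basis.ofVectorSpace K L
  let _ : LinearOrder (Module.Basis.ofVectorSpaceIndex K L) := linearOrderOfSTO WellOrderingRel
  exact noZeroDivisors_of_basis b u v hu hv

theorem nontrivial_U : Nontrivial (UniversalEnvelopingAlgebra K L) := by
  refine ⟨⟨0, 1, fun h => ?_⟩⟩
  have f : UniversalEnvelopingAlgebra K L →ₐ[K] K :=
    UniversalEnvelopingAlgebra.lift K (0 : L →ₗ⁅K⁆ K)
  have := congrArg f h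
  rw [map_zero, map_one] at this
  exact zero_ne_one this

end field

end Pool.Agent.Lib.MP_fc2f40_al.PBW
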