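import Pool.Agent.Lib.MP_fc2f40_al.Multilin
import Pool.Agent.Lib.MP_fc2f40_al.PBW
import Pool.Agent.Lib.MP_fc2f40_al.Count2

set_option autoImplicit false
set_option linter.unusedSectionVars false

/-!
Assembly: enveloping algebras of Lie algebras with a nontrivial identity satisfy the Ore condition.
-/

namespace Pool.Agent.Lib.MP_fc2f40_al.Final

open Pool.Agent.Lib.MP_fc2f40_al Words Alg
open scoped ENNReal

attribute [local instance 100] LieRing.ofAssociativeRing

section identity

variable (K : Type*) [Field K] (L : Type*) [LieRing L] [LieAlgebra K L]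

/-- the image of `L` in its enveloping algebra -/
def Lc : Submodule K (UniversalEnvelopingAlgebra K L) :=
  LinearMap.range (UniversalEnvelopingAlgebra.ι K : L →ₗ⁅K⁆ UniversalEnvelopingAlgebra K L).toLinearMap

lemma ι_mem_Lc (z : L) : UniversalEnvelopingAlgebra.ι K z ∈ Lc K L := ⟨z, rfl⟩

lemma LieClosed_Lc : LieClosed K (Lc K L) := by
  rintro _ ⟨a, rfl⟩ _ ⟨b, rfl⟩
  refine ⟨⁅a, b⁆, ?_⟩
  simp only [LieHom.coe_toLinearMap]
  rw [LieHom.map_lie, LieRing.of_associative_ring_bracket]

/-- a nonzero Lie identity gives a normalized multilinear associative identity on `L` in `U(L)` -/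
lemma exists_ident (f : FreeLieAlgebra K ℕ) (hf : f ≠ 0)
    (h : ∀ φ : ℕ → L, FreeLieAlgebra.lift K φ f = 0) :
    ∃ (n : ℕ) (c : Equiv.Perm (Fin n) → K), c 1 = 1 ∧ Ident K n c (Lc K L) := by
  classical
  let E := FreeLieAlgebra.universalEnvelopingEquivFreeAlgebra K ℕ
  let e2 := FreeAlgebra.equivMonoidAlgebraFreeMonoid (R := K) (X := ℕ)
  let F0 := e2 (E (UniversalEnvelopingAlgebra.ι K f))
  have hF0 : F0 ≠ 0 := by
    intro h0
    have h1 : E (UniversalEnvelopingAlgebra.ι K f) = 0 := by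
      have := e2.injective (a₁ := E (UniversalEnvelopingAlgebra.ι K f)) (a₂ := 0)
      apply this
      rw [map_zero]
      exact h0
    have h2 : UniversalEnvelopingAlgebra.ι K f = 0 := by
      apply E.injective
      rw [h1, map_zero]
    apply hf
    apply PBW.ι_injective K (FreeLieAlgebra K ℕ)
    rw [h2, map_zero]
  let F : List ℕ →₀ K := (F0.coeff : FreeMonoid ℕ →₀ K)
  have hFne : F.support.Nonempty := by
    rw [Finsupp.support_nonempty_iff]
    intro hF
    apply hF0
    apply MonoidAlgebra.coeff_injective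
    exact hF
  -- vanishing
  have hvan : ∀ u : ℕ → UniversalEnvelopingAlgebra K L, (∀ c, u c ∈ Lc K L) →
      F.sum (fun w a => a • (w.map u).prod) = 0 := by
    intro u hu
    choose φ hφ using hu
    have h1 : (MonoidAlgebra.lift K (UniversalEnvelopingAlgebra K L) (FreeMonoid ℕ)
        (FreeMonoid.lift u)) F0 = FreeAlgebra.lift K u (E (UniversalEnvelopingAlgebra.ι K f)) := by
      have h2 : (MonoidAlgebra.lift K (UniversalEnvelopingAlgebra K L) (FreeMonoid ℕ)
          (FreeMonoid.lift u)).comp e2.toAlgHom = FreeAlgebra.lift K u := by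
        ext i
        simp [e2, FreeAlgebra.equivMonoidAlgebraFreeMonoid]
      exact congrArg (fun G => G (E (UniversalEnvelopingAlgebra.ι K f))) h2
    have h3 : FreeAlgebra.lift K u (E (UniversalEnvelopingAlgebra.ι K f)) =
        UniversalEnvelopingAlgebra.ι K (FreeLieAlgebra.lift K φ f) := by
      have h4 : (((FreeAlgebra.lift K u).comp E.toAlgHom : _ →ₐ[K] _) : _ →ₗ⁅K⁆ _).comp
          (UniversalEnvelopingAlgebra.ι K : FreeLieAlgebra K ℕ →ₗ⁅K⁆ _) =
          (UniversalEnvelopingAlgebra.ι K : L →ₗ⁅K⁆ _).comp (FreeLieAlgebra.lift K φ) := by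
        apply FreeLieAlgebra.hom_ext
        intro i
        have h5 : E (UniversalEnvelopingAlgebra.ι K (FreeLieAlgebra.of K i)) =
            FreeAlgebra.ι K i := by
          simp only [E, FreeLieAlgebra.universalEnvelopingEquivFreeAlgebra_apply]
          rw [UniversalEnvelopingAlgebra.lift_ι_apply, FreeLieAlgebra.lift_of_apply]
        simp only [LieHom.comp_apply, AlgHom.coe_toLieHom, FreeLieAlgebra.lift_of_apply]
        change FreeAlgebra.lift K u (E (UniversalEnvelopingAlgebra.ι K (FreeLieAlgebra.of K i))) = _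
        rw [h5, FreeAlgebra.lift_ι_apply]
        exact (hφ i).symm
      exact congrArg (fun G => G f) h4
    rw [h3, h φ, map_zero, MonoidAlgebra.lift_apply] at h1
    change F0.coeff.sum (fun w a => a • (List.map u (FreeMonoid.toList w)).prod) = 0
    rw [← h1]
    refine Finsupp.sum_congr (fun w _ => ?_)
    rw [FreeMonoid.lift_apply]
  obtain ⟨w0, hw0, hmax⟩ := Finset.exists_max_image F.support List.length hFne
  have hml := fun (y : Fin w0.length → UniversalEnvelopingAlgebra K L)
    (hy : ∀ i, y i ∈ Lc K L) => multilin K w0.get y F hmax (Lc K L) hvan hy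
  have hne : F w0 ≠ 0 := Finsupp.mem_support_iff.mp hw0
  refine ⟨w0.length, fun σ => (F w0)⁻¹ * F (List.ofFn (fun i => w0.get (σ i))), ?_, ?_⟩
  · simp only [Equiv.Perm.coe_one, id_eq]
    have : List.ofFn (fun i => w0.get i) = w0 := List.ofFn_get w0
    rw [this, inv_mul_cancel₀ hne]
  · intro y hy
    have := congrArg (fun z => (F w0)⁻¹ • z) (hml y hy)
    simp only [smul_zero, Finset.smul_sum, smul_smul] at this
    exact this

end identity

section growth

variable {K : Type*} [Field K] {U : Type*} [Ring U] [Algebra K U]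

/-- span of the words of length at most `N` -/
def Vd (K : Type*) [Field K] {U : Type*} [Ring U] [Algebra K U] {m : ℕ} (x : Fin m → U) (N : ℕ) :
    Submodule K U :=
  Submodule.span K {a | ∃ w : List (Fin m), w.length ≤ N ∧ a = xw x w}

lemma Vd_mono {m : ℕ} (x : Fin m → U) {N M : ℕ} (h : N ≤ M) : Vd K x N ≤ Vd K x M := by
  apply Submodule.span_mono
  rintro a ⟨w, h1, h2⟩
  exact ⟨w, h1.trans h, h2⟩

lemma Vd_mul {m : ℕ} (x : Fin m → U) {N M : ℕ} {a b : U} (ha : a ∈ Vd K x N)
    (hb : b ∈ Vd K x M) : a * b ∈ Vd K x (N + M) := by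
  have h1 : Vd K x N * Vd K x M ≤ Vd K x (N + M) := by
    rw [Vd, Vd, Submodule.span_mul_span, Submodule.span_le]
    rintro _ ⟨_, ⟨u, hu, rfl⟩, _, ⟨v, hv, rfl⟩, rfl⟩
    simp only [SetLike.mem_coe]
    rw [← xw_append]
    exact Submodule.subset_span ⟨u ++ v, by rw [List.length_append]; omega, rfl⟩
  exact h1 (Submodule.mul_mem_mul ha hb)

lemma one_mem_Vd {m : ℕ} (x : Fin m → U) (N : ℕ) : (1 : U) ∈ Vd K x N :=
  Submodule.subset_span ⟨[], by simp, by simp⟩

lemma Vd_append_left {m m' : ℕ} (x : Fin m → U) (x' : Fin m' → U) (N : ℕ) :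
    Vd K x N ≤ Vd K (Fin.append x x') N := by
  rw [Vd, Submodule.span_le]
  rintro _ ⟨w, hw, rfl⟩
  refine Submodule.subset_span ⟨w.map (Fin.castAdd m'), by simpa using hw, ?_⟩
  simp [xw, List.map_map, Function.comp_def]

lemma Vd_append_right {m m' : ℕ} (x : Fin m → U) (x' : Fin m' → U) (N : ℕ) :
    Vd K x' N ≤ Vd K (Fin.append x x') N := by
  rw [Vd, Submodule.span_le]
  rintro _ ⟨w, hw, rfl⟩
  refine Submodule.subset_span ⟨w.map (Fin.natAdd m), by simpa using hw, ?_⟩
  simp [xw, List.map_map, Function.comp_def]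

open Classical in
/-- the finite set of chain-free words of length at most `N` -/
noncomputable def FN (n m N : ℕ) : Finset (List (Fin m)) :=
  ((List.finite_length_le (Fin m) N).toFinset).filter (fun w => ¬ Chain n w)

lemma mem_FN (n m N : ℕ) (w : List (Fin m)) : w ∈ FN n m N ↔ w.length ≤ N ∧ ¬ Chain n w := by
  simp [FN]

/-- the number of chain-free words grows subexponentially -/
lemma FN_bound (n m : ℕ) (t : ℝ≥0∞) (ht : t < 1) : ∃ Ψ : ℝ≥0∞, Ψ ≠ ⊤ ∧
    ∀ N : ℕ, ((FN n m N).card : ℝ≥0∞) * t ^ N ≤ Ψ := by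
  classical
  obtain ⟨Ψ, hΨ, h⟩ := Sk_bound t ht n (m * t) (ENNReal.mul_ne_top (by simp) ht.ne_top)
  refine ⟨Ψ, hΨ, fun N => ?_⟩
  refine le_trans ?_ (h (Fin m) (fun _ => t) (fun _ => le_rfl) (by simp) N)
  unfold Sk
  have h1 : ∑ w ∈ FN n m N, t ^ N ≤ ∑ w ∈ FN n m N,
      (if (¬ Chain n w ∧ w.length ≤ N) then gw (fun _ => t) w else 0) := by
    refine Finset.sum_le_sum (fun w hw => ?_)
    rw [mem_FN] at hw
    rw [if_pos ⟨hw.2, hw.1⟩]
    have : gw (fun _ : Fin m => t) w = t ^ w.length := by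
      simp [gw]
    rw [this]
    exact pow_le_pow_right_of_le_one' ht.le hw.1
  rw [Finset.sum_const, nsmul_eq_mul] at h1
  exact h1.trans (ENNReal.sum_le_tsum _)

variable {n : ℕ} (c : Equiv.Perm (Fin n) → K) (hc : c 1 = 1)
  (Lc : Submodule K U) (hL : LieClosed K Lc) (hI : Ident K n c Lc)

open Classical in
include hc hL hI in
lemma Vd_le_span {m : ℕ} (x : Fin m → U) (hx : ∀ i, x i ∈ Lc) (N : ℕ) :
    Vd K x N ≤ Submodule.span K (((FN n m N).image (xw x) : Finset U) : Set U) := by
  rw [Vd, Submodule.span_le]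
  rintro _ ⟨w, hw, rfl⟩
  have h1 := xw_mem_span K x c hc Lc hL hx hI w
  refine (Submodule.span_mono ?_) h1
  rintro _ ⟨v, h2, h3, rfl⟩
  simp only [Finset.coe_image, Set.mem_image, Finset.mem_coe]
  exact ⟨v, (mem_FN _ _ _ _).mpr ⟨by omega, h3⟩, rfl⟩

include hc hL hI in
lemma Vd_finite {m : ℕ} (x : Fin m → U) (hx : ∀ i, x i ∈ Lc) (N : ℕ) :
    Module.Finite K (Vd K x N) := by
  classical
  have : Module.Finite K (Submodule.span K (((FN n m N).image (xw x) : Finset U) : Set U)) :=
    Module.Finite.span_finset K _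
  exact Submodule.finiteDimensional_of_le (Vd_le_span c hc Lc hL hI x hx N)

include hc hL hI in
lemma finrank_Vd_le {m : ℕ} (x : Fin m → U) (hx : ∀ i, x i ∈ Lc) (N : ℕ) :
    Module.finrank K (Vd K x N) ≤ (FN n m N).card := by
  classical
  have : Module.Finite K (Submodule.span K (((FN n m N).image (xw x) : Finset U) : Set U)) :=
    Module.Finite.span_finset K _
  refine (Submodule.finrank_mono (Vd_le_span c hc Lc hL hI x hx N)).trans ?_
  exact (finrank_span_finset_le_card _).trans Finset.card_image_le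

include hc hL hI in
/-- dimensions cannot double at bounded cost -/
lemma growth_contra [Nontrivial U] {m : ℕ} (x : Fin m → U) (hx : ∀ i, x i ∈ Lc) (d : ℕ)
    (hd : 0 < d)
    (h : ∀ N, 2 * Module.finrank K (Vd K x N) ≤ Module.finrank K (Vd K x (N + d))) : False := by
  -- lower bound
  have h1 : ∀ j : ℕ, 2 ^ j ≤ Module.finrank K (Vd K x (j * d)) := by
    intro j
    induction j with
    | zero =>
      have := Vd_finite c hc Lc hL hI x hx (0 * d)
      rw [pow_zero, Nat.one_le_iff_ne_zero]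
      intro h0
      rw [Submodule.finrank_eq_zero] at h0
      have h2 := one_mem_Vd (K := K) x (0 * d)
      rw [h0, Submodule.mem_bot] at h2
      exact one_ne_zero h2
    | succ j ih =>
      have e : (j + 1) * d = j * d + d := by ring
      rw [e, pow_succ, mul_comm]
      exact (Nat.mul_le_mul_left 2 ih).trans (h _)
  -- parameter
  set tr : ℝ := 1 - 1 / (4 * d) with htr
  have hdr : (1 : ℝ) ≤ d := by exact_mod_cast hd
  have ht0 : 0 < 1 / (4 * (d : ℝ)) := by positivity
  have ht1 : 1 / (4 * (d : ℝ)) ≤ 1 / 4 := by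
    apply one_div_le_one_div_of_le (by norm_num)
    linarith
  have ht : (3 : ℝ) / 4 ≤ tr ^ d := by
    have := one_add_mul_le_pow (a := -(1 / (4 * (d : ℝ)))) (by linarith) d
    have h2 : (1 : ℝ) + d * -(1 / (4 * (d : ℝ))) = 3 / 4 := by
      field_simp
      norm_num
    rw [h2] at this
    have h3 : (1 : ℝ) + -(1 / (4 * (d : ℝ))) = tr := by rw [htr]; ring
    rwa [h3] at this
  have htrpos : 0 ≤ tr := by rw [htr]; linarith
  have htrlt : tr < 1 := by rw [htr]; linarith
  obtain ⟨Ψ, hΨ, hb⟩ := FN_bound n m (ENNReal.ofReal tr) (by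
    rw [← ENNReal.ofReal_one]
    exact (ENNReal.ofReal_lt_ofReal_iff one_pos).mpr htrlt)
  have h2 : ∀ j : ℕ, ((3 : ℝ) / 2) ^ j ≤ Ψ.toReal := by
    intro j
    have h3 : (2 : ℝ) ^ j * tr ^ (j * d) ≤ Ψ.toReal := by
      have h4 : ENNReal.ofReal ((2 : ℝ) ^ j * tr ^ (j * d)) ≤ Ψ := by
        refine le_trans ?_ (hb (j * d))
        rw [ENNReal.ofReal_mul (by positivity), ENNReal.ofReal_pow htrpos]
        gcongr
        have h5 : ((2 : ℝ) ^ j) = ((2 ^ j : ℕ) : ℝ) := by push_cast; rfl
        rw [h5, ENNReal.ofReal_natCast]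
        exact_mod_cast (h1 j).trans (finrank_Vd_le c hc Lc hL hI x hx (j * d))
      have h6 := ENNReal.toReal_mono hΨ h4
      rwa [ENNReal.toReal_ofReal (by positivity)] at h6
    calc ((3 : ℝ) / 2) ^ j = (2 * (3 / 4)) ^ j := by norm_num
      _ ≤ (2 * tr ^ d) ^ j := by gcongr
      _ = (2 : ℝ) ^ j * tr ^ (j * d) := by rw [mul_pow, ← pow_mul, mul_comm d j]
      _ ≤ _ := h3
  have h3 := tendsto_pow_atTop_atTop_of_one_lt (r := (3 : ℝ) / 2) (by norm_num)
  obtain ⟨j, hj⟩ := (h3.eventually (Filter.eventually_gt_atTop Ψ.toReal)).exists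
  exact absurd (h2 j) (not_le.mpr hj)

end growth

section ore

variable (K : Type*) [Field K] (L : Type*) [LieRing L] [LieAlgebra K L]

/-- every element lies in the span of bounded words in finitely many elements of `L` -/
lemma exists_Vd (a : UniversalEnvelopingAlgebra K L) :
    ∃ (m : ℕ) (x : Fin m → UniversalEnvelopingAlgebra K L) (d : ℕ),
      (∀ i, x i ∈ Lc K L) ∧ a ∈ Vd K x d := by
  induction a using PBW.U_induction with
  | algebraMap r =>
    refine ⟨0, Fin.elim0, 0, fun i => i.elim0, ?_⟩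
    rw [Algebra.algebraMap_eq_smul_one]
    exact Submodule.smul_mem _ _ (one_mem_Vd _ _)
  | ι z =>
    refine ⟨1, fun _ => UniversalEnvelopingAlgebra.ι K z, 1, fun _ => ι_mem_Lc K L z, ?_⟩
    exact Submodule.subset_span ⟨[0], by simp, by simp [xw]⟩
  | mul a b ha hb =>
    obtain ⟨m, x, d, h1, h2⟩ := ha
    obtain ⟨m', x', d', h1', h2'⟩ := hb
    refine ⟨m + m', Fin.append x x', d + d', ?_, ?_⟩
    · intro i
      induction i using Fin.addCases with
      | left i => rw [Fin.append_left]; exact h1 i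
      | right i => rw [Fin.append_right]; exact h1' i
    · exact Vd_mul _ (Vd_append_left x x' d h2) (Vd_append_right x x' d' h2')
  | add a b ha hb =>
    obtain ⟨m, x, d, h1, h2⟩ := ha
    obtain ⟨m', x', d', h1', h2'⟩ := hb
    refine ⟨m + m', Fin.append x x', d + d', ?_, ?_⟩
    · intro i
      induction i using Fin.addCases with
      | left i => rw [Fin.append_left]; exact h1 i
      | right i => rw [Fin.append_right]; exact h1' i
    · exact Submodule.add_mem _ (Vd_mono _ (by omega) (Vd_append_left x x' d h2))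
        (Vd_mono _ (by omega) (Vd_append_right x x' d' h2'))

lemma exists_Vd_two (a s : UniversalEnvelopingAlgebra K L) :
    ∃ (m : ℕ) (x : Fin m → UniversalEnvelopingAlgebra K L) (d : ℕ), 0 < d ∧
      (∀ i, x i ∈ Lc K L) ∧ a ∈ Vd K x d ∧ s ∈ Vd K x d := by
  obtain ⟨m, x, d, h1, h2⟩ := exists_Vd K L a
  obtain ⟨m', x', d', h1', h2'⟩ := exists_Vd K L s
  refine ⟨m + m', Fin.append x x', d + d' + 1, by omega, ?_, ?_, ?_⟩
  · intro i
    induction i using Fin.addCases with
    | left i => rw [Fin.append_left]; exact h1 i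
    | right i => rw [Fin.append_right]; exact h1' i
  · exact Vd_mono _ (by omega) (Vd_append_left x x' d h2)
  · exact Vd_mono _ (by omega) (Vd_append_right x x' d' h2')

/-- a noninjective linear map on pairs gives a nontrivial relation -/
lemma exists_rel {n : ℕ} (c : Equiv.Perm (Fin n) → K) (hc : c 1 = 1)
    (hI : Ident K n c (Lc K L)) {m : ℕ} (x : Fin m → UniversalEnvelopingAlgebra K L)
    (hx : ∀ i, x i ∈ Lc K L) (d : ℕ) (hd : 0 < d)
    (φ : (UniversalEnvelopingAlgebra K L × UniversalEnvelopingAlgebra K L) →ₗ[K]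
      UniversalEnvelopingAlgebra K L)
    (hφ : ∀ N, ∀ p q, p ∈ Vd K x N → q ∈ Vd K x N → φ (p, q) ∈ Vd K x (N + d)) :
    ∃ p q, φ (p, q) = 0 ∧ (p ≠ 0 ∨ q ≠ 0) := by
  by_contra hcon
  push Not at hcon
  have := PBW.nontrivial_U K L
  refine growth_contra c hc (Lc K L) (LieClosed_Lc K L) hI x hx d hd (fun N => ?_)
  have h1 := Vd_finite c hc (Lc K L) (LieClosed_Lc K L) hI x hx N
  have h2 := Vd_finite c hc (Lc K L) (LieClosed_Lc K L) hI x hx (N + d)
  let ψ : (Vd K x N × Vd K x N) →ₗ[K] Vd K x (N + d) :=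
    LinearMap.codRestrict (Vd K x (N + d))
      (φ.comp (LinearMap.prodMap (Vd K x N).subtype (Vd K x N).subtype))
      (fun pq => hφ N _ _ pq.1.2 pq.2.2)
  have hψ : Function.Injective ψ := by
    rw [← LinearMap.ker_eq_bot, LinearMap.ker_eq_bot']
    rintro ⟨p, q⟩ hpq
    have h3 : φ ((p : UniversalEnvelopingAlgebra K L), (q : UniversalEnvelopingAlgebra K L)) = 0 :=
      congrArg Subtype.val hpq
    obtain ⟨h4, h5⟩ := hcon _ _ h3
    exact Prod.ext (Subtype.ext h4) (Subtype.ext h5)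
  have h3 := LinearMap.finrank_le_finrank_of_injective hψ
  rw [Module.finrank_prod] at h3
  omega

lemma mem_nzd_iff (a : UniversalEnvelopingAlgebra K L) :
    a ∈ nonZeroDivisors (UniversalEnvelopingAlgebra K L) ↔ a ≠ 0 := by
  have := PBW.nontrivial_U K L
  constructor
  · intro h
    exact nonZeroDivisors.ne_zero h
  · intro h
    rw [mem_nonZeroDivisors_iff]
    constructor
    · intro x hx
      by_contra hne
      exact PBW.mul_ne_zero_U K L a x h hne hx
    · intro x hx
      by_contra hne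
      exact PBW.mul_ne_zero_U K L x a hne h hx

theorem left_ore (f : FreeLieAlgebra K ℕ) (hf : f ≠ 0)
    (h : ∀ φ : ℕ → L, FreeLieAlgebra.lift K φ f = 0)
    (a s : UniversalEnvelopingAlgebra K L)
    (hs : s ∈ nonZeroDivisors (UniversalEnvelopingAlgebra K L)) :
    ∃ b t : UniversalEnvelopingAlgebra K L,
      t ∈ nonZeroDivisors (UniversalEnvelopingAlgebra K L) ∧ t * a = b * s := by
  obtain ⟨n, c, hc, hI⟩ := exists_ident K L f hf h
  obtain ⟨m, x, d, hd, hx, ha, hs'⟩ := exists_Vd_two K L a s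
  rw [mem_nzd_iff] at hs
  let φ : (UniversalEnvelopingAlgebra K L × UniversalEnvelopingAlgebra K L) →ₗ[K]
      UniversalEnvelopingAlgebra K L :=
    (LinearMap.mulRight K a).comp (LinearMap.fst K _ _) -
      (LinearMap.mulRight K s).comp (LinearMap.snd K _ _)
  obtain ⟨p, q, h1, h2⟩ := exists_rel K L c hc hI x hx d hd φ (by
    intro N p q hp hq
    exact Submodule.sub_mem _ (Vd_mul x hp ha) (Vd_mul x hq hs'))
  have h3 : p * a = q * s := sub_eq_zero.mp h1
  have hp : p ≠ 0 := by
    intro hp0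
    rw [hp0, zero_mul] at h3
    rcases h2 with h2 | h2
    · exact h2 hp0
    · exact PBW.mul_ne_zero_U K L q s h2 hs h3.symm
  exact ⟨q, p, (mem_nzd_iff K L p).mpr hp, h3⟩

theorem right_ore (f : FreeLieAlgebra K ℕ) (hf : f ≠ 0)
    (h : ∀ φ : ℕ → L, FreeLieAlgebra.lift K φ f = 0)
    (a s : UniversalEnvelopingAlgebra K L)
    (hs : s ∈ nonZeroDivisors (UniversalEnvelopingAlgebra K L)) :
    ∃ b t : UniversalEnvelopingAlgebra K L,
      t ∈ nonZeroDivisors (UniversalEnvelopingAlgebra K L) ∧ a * t = s * b := by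
  obtain ⟨n, c, hc, hI⟩ := exists_ident K L f hf h
  obtain ⟨m, x, d, hd, hx, ha, hs'⟩ := exists_Vd_two K L a s
  rw [mem_nzd_iff] at hs
  let φ : (UniversalEnvelopingAlgebra K L × UniversalEnvelopingAlgebra K L) →ₗ[K]
      UniversalEnvelopingAlgebra K L :=
    (LinearMap.mulLeft K a).comp (LinearMap.fst K _ _) -
      (LinearMap.mulLeft K s).comp (LinearMap.snd K _ _)
  obtain ⟨p, q, h1, h2⟩ := exists_rel K L c hc hI x hx d hd φ (by
    intro N p q hp hq
    rw [add_comm N d]
    exact Submodule.sub_mem _ (Vd_mul x ha hp) (Vd_mul x hs' hq))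
  have h3 : a * p = s * q := sub_eq_zero.mp h1
  have hp : p ≠ 0 := by
    intro hp0
    rw [hp0, mul_zero] at h3
    rcases h2 with h2 | h2
    · exact h2 hp0
    · exact PBW.mul_ne_zero_U K L s q hs h2 h3.symm
  exact ⟨q, p, (mem_nzd_iff K L p).mpr hp, h3⟩

end ore

end Pool.Agent.Lib.MP_fc2f40_al.Final
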