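import Pool.Agent.Lib.MP_fc2f40_al.Alg

set_option autoImplicit false
set_option linter.unusedSectionVars false

/-!
Full linearization of a weak identity, over an arbitrary commutative ring.
-/

namespace Pool.Agent.Lib.MP_fc2f40_al.Alg

section multilin

variable {K : Type*} [CommRing K] {U : Type*} [Ring U] [Algebra K U]
variable {n : ℕ} (w0 : Fin n → ℕ) (y : Fin n → U)

/-- substitution with the variables in `T` deleted -/
def subT (T : Finset (Fin n)) (c : ℕ) : U := ∑ j ∈ Finset.univ.filter (fun j => j ∉ T ∧ w0 j = c), y j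

variable (K)

include K in
lemma prod_subT (T : Finset (Fin n)) (r : ℕ) (w : Fin r → ℕ) :
    (List.ofFn (fun l => subT w0 y T (w l))).prod =
      ∑ g : Fin r → Fin n, if (∀ l, g l ∉ T ∧ w0 (g l) = w l) then
        (List.ofFn (fun l => y (g l))).prod else 0 := by
  classical
  have h1 := (MultilinearMap.mkPiAlgebraFin K r U).map_sum_finset
    (fun (_ : Fin r) (j : Fin n) => y j)
    (fun l : Fin r => Finset.univ.filter (fun j => j ∉ T ∧ w0 j = w l))
  simp only [MultilinearMap.mkPiAlgebraFin_apply] at h1
  unfold subT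
  rw [h1, ← Finset.sum_filter]
  apply Finset.sum_congr
  · ext g
    simp [Fintype.mem_piFinset]
  · intro g _; rfl

lemma alt_sum (r : ℕ) (g : Fin r → Fin n) :
    ∑ T : Finset (Fin n), (if (∀ l, g l ∉ T) then ((-1 : ℤ) ^ T.card) else 0) =
      if Function.Surjective g then 1 else 0 := by
  classical
  have h1 := Finset.sum_powerset_neg_one_pow_card (x := (Finset.univ.image g)ᶜ)
  have h2 : ((Finset.univ.image g)ᶜ = ∅) ↔ Function.Surjective g := by
    rw [Finset.compl_eq_empty_iff]
    constructor
    · intro h b
      have : b ∈ Finset.univ.image g := by rw [h]; exact Finset.mem_univ _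
      simpa using this
    · intro h
      ext b
      simpa using h b
  rw [← Finset.sum_filter]
  have h3 : Finset.univ.filter (fun T : Finset (Fin n) => ∀ l, g l ∉ T) =
      ((Finset.univ.image g)ᶜ).powerset := by
    ext T
    simp only [Finset.mem_filter, Finset.mem_univ, true_and, Finset.mem_powerset]
    constructor
    · intro h b hb
      simp only [Finset.mem_compl, Finset.mem_image, Finset.mem_univ, true_and, not_exists]
      intro l hl
      exact h l (by rw [hl]; exact hb)
    · intro h l hl
      have := h hl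
      simp at this
  rw [h3, h1]
  by_cases h : Function.Surjective g
  · rw [if_pos (h2.mpr h), if_pos h]
  · rw [if_neg (fun h' => h (h2.mp h')), if_neg h]

include K in
lemma alt_prod (r : ℕ) (w : Fin r → ℕ) :
    ∑ T : Finset (Fin n), ((-1 : ℤ) ^ T.card) • (List.ofFn (fun l => subT w0 y T (w l))).prod =
      ∑ g : Fin r → Fin n, if (Function.Surjective g ∧ ∀ l, w0 (g l) = w l) then
        (List.ofFn (fun l => y (g l))).prod else 0 := by
  classical
  simp_rw [prod_subT K w0 y, Finset.smul_sum]
  rw [Finset.sum_comm]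
  refine Finset.sum_congr rfl (fun g _ => ?_)
  by_cases hw : ∀ l, w0 (g l) = w l
  · have h1 : ∀ T : Finset (Fin n), ((-1 : ℤ) ^ T.card) •
        (if (∀ l, g l ∉ T ∧ w0 (g l) = w l) then (List.ofFn (fun l => y (g l))).prod else 0) =
        (if (∀ l, g l ∉ T) then ((-1 : ℤ) ^ T.card) else 0) •
          (List.ofFn (fun l => y (g l))).prod := by
      intro T
      by_cases hT : ∀ l, g l ∉ T
      · rw [if_pos hT, if_pos (fun l => ⟨hT l, hw l⟩)]
      · rw [if_neg hT, if_neg (fun h => hT (fun l => (h l).1)), smul_zero, zero_smul]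
    rw [Finset.sum_congr rfl (fun T _ => h1 T), ← Finset.sum_smul, alt_sum]
    by_cases hs : Function.Surjective g
    · rw [if_pos hs, if_pos ⟨hs, hw⟩, one_smul]
    · rw [if_neg hs, if_neg (fun h => hs h.1), zero_smul]
  · rw [if_neg (fun h => hw h.2)]
    apply Finset.sum_eq_zero
    intro T _
    rw [if_neg (fun h => hw (fun l => (h l).2)), smul_zero]

include K in
lemma alt_prod_perm (r : ℕ) (hr : r ≤ n) (w : Fin r → ℕ) :
    ∑ T : Finset (Fin n), ((-1 : ℤ) ^ T.card) • (List.ofFn (fun l => subT w0 y T (w l))).prod =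
      ∑ σ : Equiv.Perm (Fin n), if (List.ofFn (fun l => w0 (σ l)) = List.ofFn w) then
        (List.ofFn (fun l => y (σ l))).prod else 0 := by
  classical
  rw [alt_prod K w0 y]
  rcases Nat.lt_or_eq_of_le hr with h | h
  · rw [Finset.sum_eq_zero, Finset.sum_eq_zero]
    · intro σ _
      rw [if_neg]
      intro he
      have := congrArg List.length he
      simp at this
      omega
    · intro g _
      rw [if_neg]
      rintro ⟨hs, -⟩
      have := Fintype.card_le_of_surjective g hs
      simp at this
      omega
  · subst h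
    rw [← Finset.sum_filter]
    symm
    rw [← Finset.sum_filter]
    apply Finset.sum_bij (fun (σ : Equiv.Perm (Fin r)) _ => (σ : Fin r → Fin r))
    · intro σ hσ
      simp only [Finset.mem_filter, Finset.mem_univ, true_and] at hσ ⊢
      exact ⟨σ.surjective, fun l => congrFun (List.ofFn_injective hσ) l⟩
    · intro σ _ τ _ h
      exact Equiv.coe_fn_injective h
    · intro g hg
      simp only [Finset.mem_filter, Finset.mem_univ, true_and] at hg
      have hb : Function.Bijective g := Finite.surjective_iff_bijective.mp hg.1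
      refine ⟨Equiv.ofBijective g hb, ?_, rfl⟩
      simp only [Finset.mem_filter, Finset.mem_univ, true_and]
      congr 1
      funext l
      exact hg.2 l
    · intro σ _
      rfl

/-- full linearization -/
lemma multilin (F : List ℕ →₀ K) (hmax : ∀ w ∈ F.support, w.length ≤ n) (Lc : Submodule K U)
    (hF : ∀ u : ℕ → U, (∀ c, u c ∈ Lc) → F.sum (fun w a => a • (w.map u).prod) = 0)
    (hy : ∀ i, y i ∈ Lc) :
    ∑ σ : Equiv.Perm (Fin n), F (List.ofFn (fun i => w0 (σ i))) •
      (List.ofFn (fun i => y (σ i))).prod = 0 := by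
  classical
  have h1 : ∀ T : Finset (Fin n), F.sum (fun w a => a • (w.map (subT w0 y T)).prod) = 0 := by
    intro T
    apply hF
    intro c
    exact Submodule.sum_mem _ (fun j _ => hy j)
  have h2 : ∑ T : Finset (Fin n), ((-1 : ℤ) ^ T.card) •
      F.sum (fun w a => a • (w.map (subT w0 y T)).prod) = 0 := by
    apply Finset.sum_eq_zero
    intro T _
    rw [h1, smul_zero]
  simp only [Finsupp.sum, Finset.smul_sum] at h2
  rw [Finset.sum_comm] at h2
  have h3 : ∀ w ∈ F.support, ∑ T : Finset (Fin n), ((-1 : ℤ) ^ T.card) •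
      F w • (w.map (subT w0 y T)).prod =
      ∑ σ : Equiv.Perm (Fin n), if (List.ofFn (fun l => w0 (σ l)) = w) then
        F w • (List.ofFn (fun l => y (σ l))).prod else 0 := by
    intro w hw
    have h4 := alt_prod_perm K w0 y w.length (hmax w hw) w.get
    rw [List.ofFn_get] at h4
    have h5 : ∀ T : Finset (Fin n), (List.ofFn (fun l => subT w0 y T (w.get l))).prod =
        (w.map (subT w0 y T)).prod := by
      intro T
      congr 1
      conv_rhs => rw [← List.ofFn_get w, List.map_ofFn]
      rfl
    simp_rw [h5] at h4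
    have h6 : ∀ T : Finset (Fin n), ((-1 : ℤ) ^ T.card) • F w • (w.map (subT w0 y T)).prod =
        F w • (((-1 : ℤ) ^ T.card) • (w.map (subT w0 y T)).prod) := by
      intro T
      rw [smul_comm]
    rw [Finset.sum_congr rfl (fun T _ => h6 T), ← Finset.smul_sum, h4, Finset.smul_sum]
    refine Finset.sum_congr rfl (fun σ _ => ?_)
    split_ifs <;> simp
  rw [Finset.sum_congr rfl h3, Finset.sum_comm] at h2
  rw [← h2]
  refine Finset.sum_congr rfl (fun σ _ => ?_)
  rw [Finset.sum_ite_eq]
  split_ifs with h
  · rfl
  · rw [Finsupp.notMem_support_iff.mp h, zero_smul]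

end multilin

end Pool.Agent.Lib.MP_fc2f40_al.Alg
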