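import Pool.Agent.Lib.MP_fc2f40_al.Words

set_option autoImplicit false
set_option linter.unusedSectionVars false

/-!
Reference words and the derived alphabet.
-/

namespace Pool.Agent.Lib.MP_fc2f40_al.Words

section key

variable {Z : Type*} [LinearOrder Z]

/-- key of a word: end of word is larger than every letter -/
def key (v : List Z) : List (WithTop Z) := List.map WithTop.some v ++ [⊤]

lemma key_cons (a : Z) (v : List Z) : key (a :: v) = (a : WithTop Z) :: key v := rfl

lemma key_lt_of_SLT {u v : List Z} (h : SLT u v) : key u < key v := by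
  induction u generalizing v with
  | nil => simp at h
  | cons a u ih =>
    cases v with
    | nil => simp at h
    | cons b v =>
      rw [key_cons, key_cons]
      rcases h with h | ⟨rfl, h⟩
      · exact List.Lex.rel (WithTop.coe_lt_coe.mpr h)
      · exact List.Lex.cons (ih h)

lemma key_lt_of_ext (u : List Z) (r : Z) (t : List Z) : key (u ++ r :: t) < key u := by
  induction u with
  | nil => exact List.Lex.rel (WithTop.coe_lt_top r)
  | cons a u ih => exact List.Lex.cons ih

lemma key_injective : Function.Injective (key : List Z → List (WithTop Z)) := by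
  intro u v h
  unfold key at h
  have h1 := List.append_inj_left' h (by simp)
  exact List.map_injective_iff.mpr (fun a b hab => WithTop.coe_injective hab) h1

/-- truncated key -/
def kap (T : ℕ) (S : List Z) : List (WithTop Z) := key (S.take T)

lemma kap_le_get {T : ℕ} {W S : List Z} (h : kap T W ≤ kap T S) (j : ℕ) (hj : j < T)
    (hW : j < W.length) (hS : j < S.length)
    (he : ∀ (i : ℕ) (hi : i < j), W[i]'(hi.trans hW) = S[i]'(hi.trans hS)) : W[j] ≤ S[j] := by
  by_contra hcon
  push Not at hcon
  have h1 : SLT (S.take T) (W.take T) := by
    apply SLT_of_index j (by rw [List.length_take]; omega) (by rw [List.length_take]; omega)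
    · intro i hi
      rw [List.getElem_take, List.getElem_take]
      exact (he i hi).symm
    · rw [List.getElem_take, List.getElem_take]
      exact hcon
  exact absurd h (not_le.mpr (key_lt_of_SLT h1))

lemma kap_append_le (T : ℕ) (S R : List Z) : kap T (S ++ R) ≤ kap T S := by
  unfold kap
  rw [List.take_append]
  cases h : R.take (T - S.length) with
  | nil => simp
  | cons r t =>
    have hS : S.take T = S := by
      apply List.take_of_length_le
      by_contra hcon
      push Not at hcon
      have : T - S.length = 0 := by omega
      rw [this] at h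
      simp at h
    rw [hS]
    exact (key_lt_of_ext S r t).le

end key

section ref

variable {Z : Type*} [LinearOrder Z]

/-- candidates for the next letter -/
def cand (z0 : Z) (P : List Z) : Finset Z :=
  ((Finset.Icc 1 P.length).filter (fun d => P.drop d = P.take (P.length - d))).image
    (fun d => P.getD (P.length - d) z0)

open Classical in
/-- forced next letter -/
noncomputable def nxt (z0 : Z) (P : List Z) : Z :=
  if h : (cand z0 P).Nonempty then (cand z0 P).max' h else z0

/-- iterated extension -/
noncomputable def ext (z0 : Z) (v : List Z) : ℕ → List Z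
  | 0 => v
  | (n + 1) => ext z0 v n ++ [nxt z0 (ext z0 v n)]

/-- the infinite reference word -/
noncomputable def tht (z0 : Z) (v : List Z) (i : ℕ) : Z :=
  if i < v.length then v.getD i z0 else nxt z0 (ext z0 v (i - v.length))

lemma map_tht_range (z0 : Z) (v : List Z) (n : ℕ) :
    (List.range (v.length + n)).map (tht z0 v) = ext z0 v n := by
  induction n with
  | zero =>
    rw [add_zero]
    apply List.ext_getElem
    · simp [ext]
    · intro i h1 h2
      simp only [List.getElem_map, List.getElem_range, ext, tht]
      have : i < v.length := by simpa [ext] using h2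
      rw [if_pos this]
      simp [this]
  | succ n ih =>
    rw [← add_assoc, List.range_succ, List.map_append, ih]
    simp [ext, tht]

/-- prenecklace condition for finite words -/
def PNfin (v : List Z) : Prop :=
  ∀ (d j : ℕ) (h : d + j < v.length), (∀ (i : ℕ) (hi : i < j), v[d + i]'(by omega) =
    v[i]'(by omega)) → v[j]'(by omega) ≤ v[d + j]

/-- prenecklace condition for infinite words -/
def PN (θ : ℕ → Z) : Prop := ∀ d j : ℕ, (∀ i < j, θ (d + i) = θ i) → θ j ≤ θ (d + j)

lemma getD_tht (z0 : Z) (v : List Z) (n i : ℕ) (hi : i < v.length + n) :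
    (ext z0 v n).getD i z0 = tht z0 v i := by
  rw [← map_tht_range]
  simp [List.getD_eq_getElem?_getD, hi]

lemma drop_take_iff (z0 : Z) (v : List Z) (n d j : ℕ) (hd : d + j = v.length + n) :
    (ext z0 v n).drop d = (ext z0 v n).take j ↔ ∀ i < j, tht z0 v (d + i) = tht z0 v i := by
  rw [← map_tht_range]
  constructor
  · intro h i hi
    have := congrArg (fun l => l[i]?) h
    simp only [List.getElem?_drop, List.getElem?_map, List.getElem?_take] at this
    rw [if_pos hi, List.getElem?_range (by omega), List.getElem?_range (by omega)] at this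
    simpa using this
  · intro h
    apply List.ext_getElem
    · simp; omega
    · intro i h1 h2
      simp only [List.getElem_drop, List.getElem_map, List.getElem_range, List.getElem_take]
      apply h
      simp at h1
      omega

lemma length_ext (z0 : Z) (v : List Z) (n : ℕ) : (ext z0 v n).length = v.length + n := by
  rw [← map_tht_range]; simp

lemma tht_ge (z0 : Z) (v : List Z) (hv : v ≠ []) (i : ℕ) (hi : v.length ≤ i) :
    (∃ d, 1 ≤ d ∧ d ≤ i ∧ (∀ i' < i - d, tht z0 v (d + i') = tht z0 v i') ∧
      tht z0 v i = tht z0 v (i - d)) ∧
    (∀ d, 1 ≤ d → d ≤ i → (∀ i' < i - d, tht z0 v (d + i') = tht z0 v i') →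
      tht z0 v (i - d) ≤ tht z0 v i) := by
  obtain ⟨n, rfl⟩ : ∃ n, i = v.length + n := ⟨i - v.length, by omega⟩
  have hvl : 0 < v.length := List.length_pos_iff.mpr hv
  have hθ : tht z0 v (v.length + n) = nxt z0 (ext z0 v n) := by
    simp [tht]
  have hmem : ∀ d, 1 ≤ d → d ≤ v.length + n →
      (∀ i' < v.length + n - d, tht z0 v (d + i') = tht z0 v i') →
      tht z0 v (v.length + n - d) ∈ cand z0 (ext z0 v n) := by
    intro d h1 h2 h3
    unfold cand
    rw [Finset.mem_image]
    refine ⟨d, ?_, ?_⟩
    · rw [Finset.mem_filter, Finset.mem_Icc, length_ext]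
      refine ⟨⟨h1, h2⟩, ?_⟩
      rw [drop_take_iff z0 v n d (v.length + n - d) (by omega)]
      exact h3
    · rw [length_ext, getD_tht]
      omega
  have hne : (cand z0 (ext z0 v n)).Nonempty :=
    ⟨_, hmem (v.length + n) (by omega) le_rfl (by intro i' hi'; omega)⟩
  have hmax : nxt z0 (ext z0 v n) = (cand z0 (ext z0 v n)).max' hne := by
    unfold nxt
    rw [dif_pos hne]
  constructor
  · have h1 := Finset.max'_mem _ hne
    rw [← hmax, ← hθ] at h1
    unfold cand at h1
    rw [Finset.mem_image] at h1
    obtain ⟨d, hd, hd2⟩ := h1
    rw [Finset.mem_filter, Finset.mem_Icc, length_ext] at hd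
    obtain ⟨⟨hd3, hd4⟩, hd5⟩ := hd
    rw [drop_take_iff z0 v n d (v.length + n - d) (by omega)] at hd5
    rw [length_ext, getD_tht _ _ _ _ (by omega)] at hd2
    exact ⟨d, hd3, hd4, hd5, hd2.symm⟩
  · intro d h1 h2 h3
    rw [hθ, hmax]
    exact Finset.le_max' _ _ (hmem d h1 h2 h3)

lemma tht_lt (z0 : Z) (v : List Z) (i : ℕ) (hi : i < v.length) : tht z0 v i = v[i] := by
  unfold tht
  rw [if_pos hi]
  simp [hi]

lemma PN_tht (z0 : Z) (v : List Z) (hv : v ≠ []) (h : PNfin v) : PN (tht z0 v) := by
  intro d j hdj
  rcases Nat.eq_zero_or_pos d with rfl | hd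
  · simp
  by_cases hlt : d + j < v.length
  · rw [tht_lt z0 v j (by omega), tht_lt z0 v (d + j) hlt]
    apply h d j hlt
    intro i hi
    have := hdj i hi
    rw [tht_lt z0 v (d + i) (by omega), tht_lt z0 v i (by omega)] at this
    exact this
  · have := (tht_ge z0 v hv (d + j) (by omega)).2 d hd (by omega)
    rw [Nat.add_sub_cancel_left] at this
    exact this hdj

/-- minimality: the word `W` starts with its minimal truncated factor -/
def StartsMin (T : ℕ) (W : List Z) : Prop := ∀ a : ℕ, a < W.length → kap T W ≤ kap T (W.drop a)

lemma StartsMin.PNfin {T : ℕ} {W : List Z} (h : StartsMin T W) :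
    PNfin (W.take T) := by
  intro d j hdj he
  rw [List.length_take] at hdj
  rw [List.getElem_take, List.getElem_take]
  have hd : d < W.length := by omega
  have h1 := h d hd
  have h2 := kap_le_get h1 j (by omega) (by omega) (by rw [List.length_drop]; omega) ?_
  · rw [List.getElem_drop] at h2
    exact h2
  · intro i hi
    have := he i hi
    rw [List.getElem_take, List.getElem_take] at this
    rw [List.getElem_drop]
    exact this.symm

/-- domination of all suffixes by the reference -/
def Dom (θ : ℕ → Z) (W : List Z) : Prop :=
  ∀ (a j : ℕ) (h : a + j < W.length), (∀ (i : ℕ) (hi : i < j), W[a + i]'(by omega) = θ i) →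
    θ j ≤ W[a + j]

lemma StartsMin.dom {T : ℕ} {W : List Z} (h : StartsMin T W) (hT : 0 < T) (hW : T ≤ W.length)
    (z0 : Z) : Dom (tht z0 (W.take T)) W := by
  have hlen : (W.take T).length = T := by rw [List.length_take]; omega
  have hne : W.take T ≠ [] := by
    rw [← List.length_pos_iff]; omega
  have hθ : ∀ (i : ℕ) (hi : i < T), tht z0 (W.take T) i = W[i]'(by omega) := by
    intro i hi
    rw [tht_lt z0 _ i (by omega), List.getElem_take]
  intro a j
  induction j using Nat.strong_induction_on generalizing a with
  | _ j ih =>
    intro hj he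
    by_cases hjT : j < T
    · rw [hθ j hjT]
      have h2 := kap_le_get (h a (by omega)) j hjT (by omega)
        (by rw [List.length_drop]; omega) ?_
      · rw [List.getElem_drop] at h2
        exact h2
      · intro i hi
        rw [List.getElem_drop, he i hi, hθ i (by omega)]
    · obtain ⟨d, h1, h2, h3, h4⟩ := (tht_ge z0 (W.take T) hne j (by omega)).1
      rw [h4]
      have := ih (j - d) (by omega) (a + d) (by omega) ?_
      · have e : a + d + (j - d) = a + j := by omega
        simpa only [e] using this
      · intro i hi
        have e : a + d + i = a + (d + i) := by omega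
        have := he (d + i) (by omega)
        rw [h3 i hi] at this
        simpa only [e] using this

lemma Dom.drop {θ : ℕ → Z} {W : List Z} (h : Dom θ W) (n : ℕ) : Dom θ (W.drop n) := by
  intro a j haj he
  rw [List.length_drop] at haj
  have := h (n + a) j (by omega) ?_
  · rw [List.getElem_drop]
    have e : n + (a + j) = n + a + j := by omega
    simpa only [e] using this
  · intro i hi
    have := he i hi
    rw [List.getElem_drop] at this
    have e : n + (a + i) = n + a + i := by omega
    simpa only [e] using this

end ref

section derived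

variable {Z : Type} [LinearOrder Z]

/-- derived alphabet: words `θ 0 ... θ (j-1) b` with `b > θ j` -/
def Der (θ : ℕ → Z) (J : ℕ) : Type := {p : Fin J × Z // θ p.1 < p.2}

noncomputable instance [Fintype Z] (θ : ℕ → Z) (J : ℕ) : Fintype (Der θ J) := by
  classical
  unfold Der
  infer_instance

/-- order embedding used to order the derived alphabet -/
def Der.emb {θ : ℕ → Z} {J : ℕ} (y : Der θ J) : Lex ((Fin J)ᵒᵈ × Z) :=
  toLex (OrderDual.toDual y.1.1, y.1.2)

lemma Der.emb_injective {θ : ℕ → Z} {J : ℕ} : Function.Injective (Der.emb (θ := θ) (J := J)) := by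
  intro y y' h
  unfold Der.emb at h
  have h1 := toLex.injective h
  rw [Prod.mk.injEq] at h1
  exact Subtype.ext (Prod.ext (OrderDual.toDual.injective h1.1) h1.2)

noncomputable instance (θ : ℕ → Z) (J : ℕ) : LinearOrder (Der θ J) :=
  LinearOrder.lift' Der.emb Der.emb_injective

lemma Der.lt_iff {θ : ℕ → Z} {J : ℕ} (y y' : Der θ J) :
    y < y' ↔ y'.1.1 < y.1.1 ∨ (y.1.1 = y'.1.1 ∧ y.1.2 < y'.1.2) := by
  change Der.emb y < Der.emb y' ↔ _
  unfold Der.emb
  rw [Prod.Lex.toLex_lt_toLex]
  rfl

/-- the word of a derived letter -/
def Der.word {θ : ℕ → Z} {J : ℕ} (y : Der θ J) : List Z := (List.range y.1.1).map θ ++ [y.1.2]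

lemma Der.word_length {θ : ℕ → Z} {J : ℕ} (y : Der θ J) : y.word.length = y.1.1 + 1 := by
  simp [Der.word]

lemma Der.word_get_lt {θ : ℕ → Z} {J : ℕ} (y : Der θ J) (i : ℕ) (hi : i < y.1.1) :
    y.word[i]'(by rw [Der.word_length]; omega) = θ i := by
  unfold Der.word
  rw [List.getElem_append_left (by simpa using hi)]
  simp

lemma Der.word_get_eq {θ : ℕ → Z} {J : ℕ} (y : Der θ J) :
    y.word[(y.1.1 : ℕ)]'(by rw [Der.word_length]; omega) = y.1.2 := by
  unfold Der.word
  rw [List.getElem_append_right (by simp)]
  simp

lemma Der.code {θ : ℕ → Z} (hθ : PN θ) (J : ℕ) : Code (Der.word (θ := θ) (J := J)) := by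
  constructor
  · intro y y' h
    rw [Der.lt_iff] at h
    rcases h with h | ⟨h1, h2⟩
    · have h' : (y'.1.1 : ℕ) < y.1.1 := h
      apply SLT_of_index (y'.1.1 : ℕ) (by rw [Der.word_length]; omega)
        (by rw [Der.word_length]; omega)
      · intro i hi
        rw [Der.word_get_lt y i (by omega), Der.word_get_lt y' i hi]
      · rw [Der.word_get_lt y _ h', Der.word_get_eq]
        exact y'.2
    · have h' : (y.1.1 : ℕ) = y'.1.1 := by rw [h1]
      apply SLT_of_index (y'.1.1 : ℕ) (by rw [Der.word_length]; omega)
        (by rw [Der.word_length]; omega)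
      · intro i hi
        rw [Der.word_get_lt y i (by omega), Der.word_get_lt y' i hi]
      · rw [Der.word_get_eq]
        have := Der.word_get_eq y
        simp only [h'] at this
        rw [this]
        exact h2
  · intro y
    refine ⟨by simp [Der.word], ?_⟩
    intro a s ha hs e
    have hal := List.length_pos_iff.mpr ha
    have hsl := List.length_pos_iff.mpr hs
    have hlen : y.word.length = a.length + s.length := by rw [e, List.length_append]
    rw [Der.word_length] at hlen
    have hget : ∀ (i : ℕ) (hi : i < s.length), s[i] = y.word[a.length + i]'(by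
        rw [Der.word_length]; omega) := by
      intro i hi
      simp only [e]
      rw [List.getElem_append_right (by omega)]
      simp
    -- first index where θ (d + i) ≠ θ i
    by_cases hall : ∀ i < s.length - 1, θ (a.length + i) = θ i
    · apply SLT_of_index (s.length - 1) (by rw [Der.word_length]; omega) (by omega)
      · intro i hi
        rw [hget i (by omega), Der.word_get_lt y i (by omega),
          Der.word_get_lt y _ (by omega), hall i hi]
      · rw [hget _ (by omega), Der.word_get_lt y _ (by omega)]
        have e1 : a.length + (s.length - 1) = y.1.1 := by omega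
        simp only [e1]
        rw [Der.word_get_eq]
        refine lt_of_le_of_lt (hθ a.length (s.length - 1) hall) ?_
        rw [e1]
        exact y.2
    · push Not at hall
      classical
      let n := Nat.find hall
      have hn : n < s.length - 1 ∧ θ (a.length + n) ≠ θ n := Nat.find_spec hall
      have hmin : ∀ i < n, θ (a.length + i) = θ i := by
        intro i hi
        have := Nat.find_min hall hi
        push Not at this
        exact this (by omega)
      apply SLT_of_index n (by rw [Der.word_length]; omega) (by omega)
      · intro i hi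
        rw [hget i (by omega), Der.word_get_lt y i (by omega),
          Der.word_get_lt y _ (by omega), hmin i hi]
      · rw [hget _ (by omega), Der.word_get_lt y _ (by omega), Der.word_get_lt y _ (by omega)]
        exact lt_of_le_of_ne (hθ a.length n hmin) (Ne.symm hn.2)

/-- parsing a dominated word over the derived alphabet -/
lemma Dom.parse {θ : ℕ → Z} (J : ℕ) : ∀ (N : ℕ) (W : List Z), W.length ≤ N → N ≤ J → Dom θ W →
    ∃ (l : List (Der θ J)) (n : ℕ), W = l.flatMap Der.word ++ (List.range n).map θ ∧
      ∀ T : ℕ, (∀ (i : ℕ) (hi : i < W.length), i < T → W[i] = θ i) → T ≤ W.length →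
        (l = [] ∧ T ≤ n) ∨ ∃ (y : Der θ J) (l' : List (Der θ J)), l = y :: l' ∧ T ≤ y.1.1 := by
  intro N
  induction N with
  | zero =>
    intro W hW _ _
    have : W = [] := List.length_eq_zero_iff.mp (by omega)
    subst this
    exact ⟨[], 0, by simp, fun T _ hT => Or.inl ⟨rfl, by simpa using hT⟩⟩
  | succ N ih =>
    intro W hW hJ hdom
    by_cases hall : ∀ (i : ℕ) (hi : i < W.length), W[i] = θ i
    · refine ⟨[], W.length, ?_, fun T _ hT => Or.inl ⟨rfl, hT⟩⟩
      simp only [List.flatMap_nil, List.nil_append]
      apply List.ext_getElem
      · simp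
      · intro i h1 h2
        simp [hall i h1]
    · push Not at hall
      classical
      let n := Nat.find hall
      obtain ⟨hn1, hn2⟩ := Nat.find_spec hall
      change W[n] ≠ θ n at hn2
      have hn1' : n < W.length := hn1
      have hmin : ∀ (i : ℕ) (hi : i < n), W[i]'(hi.trans hn1') = θ i := by
        intro i hi
        have := Nat.find_min hall hi
        push Not at this
        exact this (hi.trans hn1')
      have hlt : θ n < W[n] := by
        refine lt_of_le_of_ne ?_ (Ne.symm hn2)
        have := hdom 0 n (by omega) (by
          intro i hi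
          have := hmin i hi
          simpa using this)
        simpa using this
      let y : Der θ J := ⟨(⟨n, by omega⟩, W[n]), hlt⟩
      have hWeq : W = y.word ++ W.drop (n + 1) := by
        have h1 : W = W.take (n + 1) ++ W.drop (n + 1) := (List.take_append_drop _ _).symm
        have h2 : W.take (n + 1) = y.word := by
          apply List.ext_getElem
          · rw [Der.word_length, List.length_take]
            change min (n + 1) W.length = n + 1
            omega
          · intro i h3 h4
            rw [List.getElem_take]
            rw [Der.word_length] at h4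
            change i < n + 1 at h4
            rcases Nat.lt_succ_iff_lt_or_eq.mp h4 with h5 | h5
            · rw [Der.word_get_lt y i h5, hmin i h5]
            · subst h5
              exact (Der.word_get_eq y).symm
        rw [← h2]
        exact h1
      obtain ⟨l, m, hl, -⟩ := ih (W.drop (n + 1)) (by rw [List.length_drop]; omega) (by omega)
        (hdom.drop (n + 1))
      refine ⟨y :: l, m, ?_, ?_⟩
      · rw [List.flatMap_cons, List.append_assoc, ← hl]
        exact hWeq
      · intro T hT _
        right
        refine ⟨y, l, rfl, ?_⟩
        by_contra hcon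
        push Not at hcon
        exact hn2 (hT n hn1' hcon)

end derived

end Pool.Agent.Lib.MP_fc2f40_al.Words
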