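import Mathlib

set_option autoImplicit false
set_option linter.unusedSectionVars false

/-!
Combinatorics on words: strict lexicographic difference, Lyndon words, chains of Lyndon words.
-/

namespace Pool.Agent.Lib.MP_fc2f40_al.Words

section basic

variable {α : Type*} [LinearOrder α]

/-- `u` and `v` differ at some place and at the first such place `u` is smaller -/
def SLT : List α → List α → Prop
  | [], _ => False
  | _ :: _, [] => False
  | a :: u, b :: v => a < b ∨ (a = b ∧ SLT u v)

@[simp] lemma not_SLT_nil_left (v : List α) : ¬ SLT [] v := by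
  cases v <;> simp [SLT]

@[simp] lemma not_SLT_nil_right (u : List α) : ¬ SLT u [] := by
  cases u <;> simp [SLT]

@[simp] lemma SLT_cons (a b : α) (u v : List α) :
    SLT (a :: u) (b :: v) ↔ a < b ∨ (a = b ∧ SLT u v) := Iff.rfl

lemma SLT_irrefl (u : List α) : ¬ SLT u u := by
  induction u with
  | nil => simp
  | cons a u ih => simp [ih]

lemma SLT_trans {u v w : List α} (h1 : SLT u v) (h2 : SLT v w) : SLT u w := by
  induction u generalizing v w with
  | nil => simp at h1
  | cons a u ih =>
    cases v with
    | nil => simp at h1
    | cons b v =>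
      cases w with
      | nil => simp at h2
      | cons c w =>
        simp only [SLT_cons] at *
        rcases h1 with h1 | ⟨rfl, h1⟩ <;> rcases h2 with h2 | ⟨rfl, h2⟩
        · exact Or.inl (lt_trans h1 h2)
        · exact Or.inl h1
        · exact Or.inl h2
        · exact Or.inr ⟨rfl, ih h1 h2⟩

lemma SLT_append {u v : List α} (h : SLT u v) (s t : List α) : SLT (u ++ s) (v ++ t) := by
  induction u generalizing v with
  | nil => simp at h
  | cons a u ih =>
    cases v with
    | nil => simp at h
    | cons b v =>
      simp only [SLT_cons, List.cons_append] at *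
      rcases h with h | ⟨rfl, h⟩
      · exact Or.inl h
      · exact Or.inr ⟨rfl, ih h⟩

@[simp] lemma SLT_append_left (c u v : List α) : SLT (c ++ u) (c ++ v) ↔ SLT u v := by
  induction c with
  | nil => simp
  | cons a c ih => simp [ih]

lemma SLT_trichotomy (u v : List α) (h : u.length = v.length) : u = v ∨ SLT u v ∨ SLT v u := by
  induction u generalizing v with
  | nil =>
    cases v with
    | nil => simp
    | cons b v => simp at h
  | cons a u ih =>
    cases v with
    | nil => simp at h
    | cons b v =>
      simp only [List.length_cons, add_left_inj] at h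
      simp only [SLT_cons, List.cons.injEq]
      rcases lt_trichotomy a b with hab | hab | hab
      · exact Or.inr (Or.inl (Or.inl hab))
      · subst hab
        rcases ih v h with h1 | h1 | h1
        · exact Or.inl ⟨rfl, h1⟩
        · exact Or.inr (Or.inl (Or.inr ⟨rfl, h1⟩))
        · exact Or.inr (Or.inr (Or.inr ⟨rfl, h1⟩))
      · exact Or.inr (Or.inr (Or.inl hab))

/-- a strict difference read off at an index -/
lemma SLT_of_index {u v : List α} (n : ℕ) (hu : n < u.length) (hv : n < v.length)
    (h : ∀ (i : ℕ) (hi : i < n), u[i]'(hi.trans hu) = v[i]'(hi.trans hv)) (hlt : u[n] < v[n]) :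
    SLT u v := by
  induction n generalizing u v with
  | zero =>
    cases u with
    | nil => simp at hu
    | cons a u =>
      cases v with
      | nil => simp at hv
      | cons b v => left; simpa using hlt
  | succ n ih =>
    cases u with
    | nil => simp at hu
    | cons a u =>
      cases v with
      | nil => simp at hv
      | cons b v =>
        right
        refine ⟨by simpa using h 0 (Nat.succ_pos _), ?_⟩
        apply ih (by simpa using hu) (by simpa using hv)
        · intro i hi
          simpa using h (i + 1) (by omega)
        · simpa using hlt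

/-- if `u` and `v` are words with `u.length ≤ v.length` then they are related or `u` is a prefix -/
lemma SLT_or_prefix (u v : List α) (h : u.length ≤ v.length) : u <+: v ∨ SLT u v ∨ SLT v u := by
  induction u generalizing v with
  | nil => left; exact List.nil_prefix
  | cons a u ih =>
    cases v with
    | nil => simp at h
    | cons b v =>
      simp only [List.length_cons, add_le_add_iff_right] at h
      simp only [SLT_cons]
      rcases lt_trichotomy a b with hab | hab | hab
      · exact Or.inr (Or.inl (Or.inl hab))
      · subst hab
        rcases ih v h with h1 | h1 | h1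
        · left; simpa using h1
        · exact Or.inr (Or.inl (Or.inr ⟨rfl, h1⟩))
        · exact Or.inr (Or.inr (Or.inr ⟨rfl, h1⟩))
      · exact Or.inr (Or.inr (Or.inl hab))

/-- Lyndon words: strictly smaller than all proper nonempty suffixes -/
def Lyn (u : List α) : Prop := u ≠ [] ∧ ∀ a s : List α, a ≠ [] → s ≠ [] → u = a ++ s → SLT u s

/-- `k`-chain: a factor which is a product of `k` Lyndon words in increasing order -/
def Chain (k : ℕ) (w : List α) : Prop :=
  ∃ (p q : List α) (us : List (List α)), w = p ++ us.flatten ++ q ∧ us.length = k ∧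
    (∀ u ∈ us, Lyn u) ∧ us.Pairwise (fun u v => SLT (u ++ v) (v ++ u))

lemma Lyn_singleton (a : α) : Lyn [a] := by
  refine ⟨by simp, ?_⟩
  intro c s hc hs h
  have := congrArg List.length h
  simp only [List.length_cons, List.length_nil, zero_add, List.length_append] at this
  have h1 := List.length_pos_iff.mpr hc
  have h2 := List.length_pos_iff.mpr hs
  omega

/-- a letter followed by larger letters is a Lyndon word -/
lemma Lyn_head (y : α) (p : List α) (h : ∀ z ∈ p, y < z) : Lyn (y :: p) := by
  refine ⟨by simp, ?_⟩
  intro a s ha hs e
  cases a with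
  | nil => exact absurd rfl ha
  | cons b a =>
    rw [List.cons_append, List.cons.injEq] at e
    obtain ⟨rfl, rfl⟩ := e
    cases s with
    | nil => exact absurd rfl hs
    | cons c s =>
      left
      apply h
      simp

lemma Chain_of_factor {k : ℕ} {w : List α} (h : Chain k w) (a b : List α) :
    Chain k (a ++ w ++ b) := by
  obtain ⟨p, q, us, rfl, h1, h2, h3⟩ := h
  exact ⟨a ++ p, q ++ b, us, by simp, h1, h2, h3⟩

/-- head lemma -/
lemma Chain_succ_of_head {k : ℕ} (y : α) (c : List α) (hy : ∀ z ∈ c, y < z) (h : Chain k c) :
    Chain (k + 1) (y :: c) := by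
  obtain ⟨p, q, us, rfl, h1, h2, h3⟩ := h
  refine ⟨[], q, (y :: p) :: us, by simp, by simp [h1], ?_, ?_⟩
  · intro u hu
    rw [List.mem_cons] at hu
    rcases hu with rfl | hu
    · apply Lyn_head
      intro z hz
      apply hy
      simp [hz]
    · exact h2 u hu
  · rw [List.pairwise_cons]
    refine ⟨?_, h3⟩
    intro v hv
    have hvne := (h2 v hv).1
    cases v with
    | nil => exact absurd rfl hvne
    | cons b v =>
      left
      apply hy
      rw [List.mem_append, List.mem_append]
      left; right
      rw [List.mem_flatten]
      exact ⟨_, hv, by simp⟩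

end basic

section transfer

variable {α β : Type*} [LinearOrder α] [LinearOrder β]

/-- A code `β → List α` compatible with the orders and with values Lyndon words -/
structure Code (W : β → List α) : Prop where
  lt : ∀ y y' : β, y < y' → SLT (W y) (W y')
  lyn : ∀ y : β, Lyn (W y)

variable {W : β → List α}

lemma Code.SLT (h : Code W) {l l' : List β} (hl : SLT l l') : Words.SLT (l.flatMap W) (l'.flatMap W) := by
  induction l generalizing l' with
  | nil => simp at hl
  | cons y l ih =>
    cases l' with
    | nil => simp at hl
    | cons y' l' =>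
      rw [List.flatMap_cons, List.flatMap_cons]
      rcases hl with hl | ⟨rfl, hl⟩
      · exact SLT_append (h.lt _ _ hl) _ _
      · rw [SLT_append_left]
        exact ih hl

lemma flatMap_split (W : β → List α) (l : List β) (a s : List α) (hs : s ≠ [])
    (e : l.flatMap W = a ++ s) :
    ∃ (l1 : List β) (y : β) (l2 : List β) (c d : List α), l = l1 ++ y :: l2 ∧ W y = c ++ d ∧ d ≠ [] ∧
      a = l1.flatMap W ++ c ∧ s = d ++ l2.flatMap W := by
  induction l generalizing a with
  | nil =>
    simp only [List.flatMap_nil] at e
    have := (List.append_eq_nil_iff.mp e.symm).2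
    exact absurd this hs
  | cons y l ih =>
    rw [List.flatMap_cons] at e
    rcases List.append_eq_append_iff.mp e with ⟨a', h1, h2⟩ | ⟨c', h1, h2⟩
    · -- a = W y ++ a'
      obtain ⟨l1, y', l2, c, d, g1, g2, g3, g4, g5⟩ := ih a' h2
      refine ⟨y :: l1, y', l2, c, d, by rw [g1]; rfl, g2, g3, ?_, g5⟩
      rw [h1, g4, List.flatMap_cons, List.append_assoc]
    · -- W y = a ++ c'
      by_cases hc : c' = []
      · subst hc
        simp only [List.append_nil, List.nil_append] at h1 h2
        -- s = l.flatMap W
        obtain ⟨l1, y', l2, c, d, g1, g2, g3, g4, g5⟩ := ih [] (by rw [h2]; rfl)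
        refine ⟨y :: l1, y', l2, c, d, by rw [g1]; rfl, g2, g3, ?_, g5⟩
        rw [List.flatMap_cons, List.append_assoc, ← g4, List.append_nil, h1]
      · exact ⟨[], y, l, a, c', rfl, h1, hc, by simp, h2⟩

lemma Code.Lyn (h : Code W) {l : List β} (hl : Lyn l) : Words.Lyn (l.flatMap W) := by
  refine ⟨?_, ?_⟩
  · obtain ⟨y, l', rfl⟩ := List.exists_cons_of_ne_nil hl.1
    rw [List.flatMap_cons]
    intro e
    exact (h.lyn y).1 (List.append_eq_nil_iff.mp e).1
  · intro a s ha hs e
    obtain ⟨l1, y, l2, c, d, g1, g2, g3, g4, g5⟩ := flatMap_split W l a s hs e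
    have k1 : l1 ≠ [] → Words.SLT (l.flatMap W) ((y :: l2).flatMap W) := by
      intro hl1
      exact h.SLT (hl.2 l1 (y :: l2) hl1 (by simp) g1)
    by_cases hc : c = []
    · subst hc
      simp only [List.nil_append] at g2
      have : s = (y :: l2).flatMap W := by rw [g5, List.flatMap_cons, g2]
      rw [this]
      apply k1
      rintro rfl
      apply ha
      simpa using g4
    · have k2 : Words.SLT ((y :: l2).flatMap W) s := by
        rw [g5, List.flatMap_cons]
        exact SLT_append ((h.lyn y).2 c d hc g3 g2) _ _
      by_cases hl1 : l1 = []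
      · subst hl1
        rw [g1]
        simpa using k2
      · exact SLT_trans (k1 hl1) k2

lemma flatten_flatMap' (W : β → List α) (us : List (List β)) :
    us.flatten.flatMap W = (us.map (fun u => u.flatMap W)).flatten := by
  induction us with
  | nil => simp
  | cons u us ih => simp only [List.flatten_cons, List.flatMap_append, List.map_cons, ih]

lemma Code.Chain (h : Code W) {k : ℕ} {l : List β} (hl : Chain k l) :
    Words.Chain k (l.flatMap W) := by
  obtain ⟨p, q, us, rfl, h1, h2, h3⟩ := hl
  refine ⟨p.flatMap W, q.flatMap W, us.map (fun u => u.flatMap W), ?_, by simpa using h1, ?_, ?_⟩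
  · rw [List.flatMap_append, List.flatMap_append]
    rw [flatten_flatMap']
  · intro u hu
    rw [List.mem_map] at hu
    obtain ⟨u', hu', rfl⟩ := hu
    exact h.Lyn (h2 u' hu')
  · rw [List.pairwise_map]
    refine h3.imp ?_
    intro u v huv
    have := h.SLT huv
    rwa [List.flatMap_append, List.flatMap_append] at this

end transfer

end Pool.Agent.Lib.MP_fc2f40_al.Words
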